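import Pool.Agent.TH97.GB.Defs

set_option autoImplicit false

/-!
# Job DM of project GB (helper97): dominating layer of the derived series and the Frattini argument
-/

namespace Pool.Agent.TH866.GB_DM

open Pool.Agent.TH97.GB Subgroup

/-- choice of the layer: a lemma on real sequences -/
theorem layer (η : ℝ) (hη : 0 < η) : ∀ (D : ℕ) (x : ℕ → ℝ), (∀ i, 1 ≤ x i) →
    (∀ i, x (i + 1) ≤ x i) → x D = 1 →
    x 0 = 1 ∨ ∃ i < D, x (i + 1) ≤ (x i / x (i + 1)) ^ η ∧
      (x 0) ^ ((η / (1 + η)) ^ D / (1 + η)) ≤ x i / x (i + 1) := by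
  intro D
  induction D with
  | zero => intro x _ _ h; exact Or.inl h
  | succ D ih =>
    intro x h1 ha hD
    have h1η : 0 < 1 + η := by linarith
    set θ := η / (1 + η) with hθ
    have hθ0 : 0 < θ := div_pos hη h1η
    have hθ1 : θ ≤ 1 := by rw [hθ, div_le_one h1η]; linarith
    have hx0 : 0 < x 0 := lt_of_lt_of_le one_pos (h1 0)
    have hx1 : 0 < x 1 := lt_of_lt_of_le one_pos (h1 1)
    have hr1 : 1 ≤ x 0 / x 1 := by
      rw [one_le_div hx1]; exact ha 0
    have hr0 : 0 < x 0 / x 1 := lt_of_lt_of_le one_pos hr1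
    by_cases hc : x 1 ≤ (x 0 / x 1) ^ η
    · right
      refine ⟨0, Nat.succ_pos D, by simpa using hc, ?_⟩
      have h2 : x 0 ≤ (x 0 / x 1) ^ (1 + η) := by
        rw [Real.rpow_add hr0, Real.rpow_one]
        calc x 0 = x 0 / x 1 * x 1 := by field_simp
          _ ≤ x 0 / x 1 * (x 0 / x 1) ^ η := by
              exact mul_le_mul_of_nonneg_left hc hr0.le
      have h3 : (x 0) ^ (1 / (1 + η)) ≤ x 0 / x 1 := by
        calc (x 0) ^ (1 / (1 + η)) ≤ ((x 0 / x 1) ^ (1 + η)) ^ (1 / (1 + η)) :=
              Real.rpow_le_rpow hx0.le h2 (by positivity)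
          _ = x 0 / x 1 := by
              rw [← Real.rpow_mul hr0.le]
              rw [show (1 + η) * (1 / (1 + η)) = 1 by field_simp]
              exact Real.rpow_one _
      refine le_trans ?_ (by simpa using h3)
      apply Real.rpow_le_rpow_of_exponent_le (h1 0)
      rw [inv_eq_one_div]
      apply div_le_div_of_nonneg_right _ h1η.le
      exact pow_le_one₀ hθ0.le hθ1
    · push Not at hc
      have h4 : (x 0) ^ θ ≤ x 1 := by
        have h5 : (x 0) ^ η ≤ (x 1) ^ (1 + η) := by
          rw [Real.rpow_add hx1, Real.rpow_one]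
          have h6 : (x 0) ^ η = (x 0 / x 1) ^ η * (x 1) ^ η := by
            rw [← Real.mul_rpow hr0.le hx1.le]
            congr 1
            field_simp
          rw [h6]
          exact mul_le_mul_of_nonneg_right hc.le (Real.rpow_nonneg hx1.le _)
        calc (x 0) ^ θ = ((x 0) ^ η) ^ (1 / (1 + η)) := by
              rw [← Real.rpow_mul hx0.le, hθ]; congr 1; ring
          _ ≤ ((x 1) ^ (1 + η)) ^ (1 / (1 + η)) :=
              Real.rpow_le_rpow (Real.rpow_nonneg hx0.le _) h5 (by positivity)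
          _ = x 1 := by
              rw [← Real.rpow_mul hx1.le]
              rw [show (1 + η) * (1 / (1 + η)) = 1 by field_simp]
              exact Real.rpow_one _
      rcases ih (fun i => x (i + 1)) (fun i => h1 (i + 1)) (fun i => ha (i + 1)) hD with h | h
      · left
        simp only [zero_add] at h
        rw [h] at h4
        by_contra hne
        have hgt : 1 < x 0 := lt_of_le_of_ne (h1 0) (Ne.symm hne)
        exact absurd (Real.one_lt_rpow hgt hθ0) (not_lt.mpr h4)
      · right
        obtain ⟨i, hi, h7, h8⟩ := h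
        refine ⟨i + 1, by omega, h7, ?_⟩
        refine le_trans ?_ h8
        simp only [zero_add]
        calc (x 0) ^ (θ ^ (D + 1) / (1 + η)) = ((x 0) ^ θ) ^ (θ ^ D / (1 + η)) := by
              rw [← Real.rpow_mul hx0.le]; congr 1; ring
          _ ≤ (x 1) ^ (θ ^ D / (1 + η)) :=
              Real.rpow_le_rpow (Real.rpow_nonneg hx0.le _) h4 (by positivity)

/-- a large prime power factor -/
theorem big_prime (m N : ℕ) (hm : 0 < m) (hN : N ≠ 0)
    (h : ∀ p : ℕ, p.Prime → p ∣ N → p ∣ m) :
    ∃ p : ℕ, p.Prime ∧ p ≤ m + 1 ∧ N ≤ (p ^ N.factorization p) ^ m := by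
  by_cases hN1 : N = 1
  · exact ⟨2, Nat.prime_two, by omega, by simp [hN1]⟩
  by_contra hcon
  push Not at hcon
  have hlt : ∀ p ∈ N.primeFactors, (p ^ N.factorization p) ^ m < N := by
    intro p hp
    have hpp := Nat.prime_of_mem_primeFactors hp
    have hpd := Nat.dvd_of_mem_primeFactors hp
    exact hcon p hpp (le_trans (Nat.le_of_dvd hm (h p hpp hpd)) (Nat.le_succ m))
  have hne : N.primeFactors.Nonempty := by
    obtain ⟨p, hp, hpd⟩ := Nat.exists_prime_and_dvd hN1
    exact ⟨p, Nat.mem_primeFactors.mpr ⟨hp, hpd, hN⟩⟩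
  have hprod : ∏ p ∈ N.primeFactors, (p ^ N.factorization p) ^ m = N ^ m := by
    rw [Finset.prod_pow]
    congr 1
    exact Nat.prod_factorization_pow_eq_self hN
  have hlt2 : N ^ m < N ^ N.primeFactors.card := by
    rw [← hprod, ← Finset.prod_const]
    apply Finset.prod_lt_prod_of_nonempty _ hlt hne
    intro p hp
    have := (Nat.prime_of_mem_primeFactors hp).pos
    positivity
  have hcard : N.primeFactors.card ≤ m := by
    calc N.primeFactors.card ≤ (Finset.Icc 1 m).card := by
          apply Finset.card_le_card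
          intro p hp
          have hpp := Nat.prime_of_mem_primeFactors hp
          have hpd := Nat.dvd_of_mem_primeFactors hp
          exact Finset.mem_Icc.mpr ⟨hpp.pos, Nat.le_of_dvd hm (h p hpp hpd)⟩
      _ = m := by simp
  have : N ^ N.primeFactors.card ≤ N ^ m := Nat.pow_le_pow_right (Nat.pos_of_ne_zero hN) hcard
  omega

/-- cardinality of a preimage under a quotient map -/
theorem card_comap_mk {G : Type} [Group G] [Finite G] (M : Subgroup G) [M.Normal]
    (H : Subgroup (G ⧸ M)) :
    Nat.card (H.comap (QuotientGroup.mk' M)) = Nat.card M * Nat.card H := by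
  have h1 := (H.comap (QuotientGroup.mk' M)).card_mul_index
  rw [Subgroup.index_comap_of_surjective H (QuotientGroup.mk'_surjective M)] at h1
  have h2 := H.card_mul_index
  have h3 := M.card_mul_index
  have h4 : M.index = Nat.card (G ⧸ M) := rfl
  have h5 : 0 < H.index := Nat.pos_of_ne_zero Subgroup.index_ne_zero_of_finite
  apply Nat.eq_of_mul_eq_mul_right h5
  rw [h1, ← h3, h4, ← h2, mul_assoc]

/-- The Frattini step. -/
theorem frattini {G : Type} [Group G] [Finite G] (m : ℕ) (hm : 0 < m) (K M : Subgroup G)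
    [K.Normal] [M.Normal] (hMK : M ≤ K) (hcomm : ∀ x ∈ K, ∀ y ∈ K, x * y * x⁻¹ * y⁻¹ ∈ M)
    (hexp : ∀ x ∈ K, x ^ m = 1) :
    ∃ p : ℕ, p.Prime ∧ p ≤ m + 1 ∧ ∃ P : Subgroup G, P ≤ K ∧ IsPGroup p P ∧
      Nat.card K ≤ Nat.card M * (Nat.card P) ^ m ∧
      (Subgroup.normalizer (P : Set G)).index ≤ Nat.card M := by
  -- the quotient
  set f := QuotientGroup.mk' M with hf
  set Kb : Subgroup (G ⧸ M) := K.map f with hKb
  have hKbn : Kb.Normal := Subgroup.Normal.map inferInstance f (QuotientGroup.mk'_surjective M)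
  have hcK : Kb.comap f = K := by
    rw [hKb, Subgroup.comap_map_eq, hf, QuotientGroup.ker_mk', sup_eq_left.mpr hMK]
  have hcard : Nat.card K = Nat.card M * Nat.card Kb := by
    rw [← card_comap_mk M Kb, ← hf, hcK]
  have hKbcomm : ∀ x y : Kb, x * y = y * x := by
    rintro ⟨x, hx⟩ ⟨y, hy⟩
    obtain ⟨x', hx', rfl⟩ := hx
    obtain ⟨y', hy', rfl⟩ := hy
    apply Subtype.ext
    change f x' * f y' = f y' * f x'
    have h1 : f (x' * y' * x'⁻¹ * y'⁻¹) = 1 := by
      rw [← MonoidHom.mem_ker, hf, QuotientGroup.ker_mk']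
      exact hcomm x' hx' y' hy'
    simp only [map_mul, map_inv] at h1
    have h2 := eq_mul_of_mul_inv_eq (eq_mul_of_mul_inv_eq (b := (1 : G ⧸ M)) (c := f y') h1)
    rw [one_mul] at h2
    rw [h2]
  have hKbexp : ∀ x : Kb, x ^ m = 1 := by
    rintro ⟨x, hx⟩
    obtain ⟨x', hx', rfl⟩ := hx
    apply Subtype.ext
    change (f x') ^ m = 1
    rw [← map_pow, hexp x' hx', map_one]
  have hN0 : Nat.card Kb ≠ 0 := Nat.card_pos.ne'
  obtain ⟨p, hp, hpm, hbig⟩ := big_prime m (Nat.card Kb) hm hN0 (by
    intro p hp hpd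
    have : Fact p.Prime := ⟨hp⟩
    obtain ⟨x, hx⟩ := exists_prime_orderOf_dvd_card' p hpd
    rw [← hx]
    exact orderOf_dvd_of_pow_eq_one (hKbexp x))
  have : Fact p.Prime := ⟨hp⟩
  -- the Sylow subgroup of the quotient
  obtain ⟨S⟩ : Nonempty (Sylow p Kb) := inferInstance
  have hSn : (S : Subgroup Kb).Normal := by
    constructor
    intro n hn g
    rw [hKbcomm g n, mul_assoc, mul_inv_cancel, mul_one]
    exact hn
  have hSc : (S : Subgroup Kb).Characteristic := Sylow.characteristic_of_normal S hSn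
  set Sb : Subgroup (G ⧸ M) := (S : Subgroup Kb).map Kb.subtype with hSb
  have : Sb.Normal := by
    rw [hSb]; exact ConjAct.normal_of_characteristic_of_normal
  have hSbcard : Nat.card Sb = p ^ (Nat.card Kb).factorization p := by
    rw [← S.card_eq_multiplicity, hSb]
    exact Nat.card_congr ((S : Subgroup Kb).equivMapOfInjective Kb.subtype
      Kb.subtype_injective).symm.toEquiv
  have hSbK : Sb ≤ Kb := by
    rw [hSb]; exact Subgroup.map_subtype_le _
  set Kp : Subgroup G := Sb.comap f with hKp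
  have : Kp.Normal := by
    rw [hKp]; exact Subgroup.Normal.comap inferInstance f
  have hKpcard : Nat.card Kp = Nat.card M * Nat.card Sb := by
    rw [hKp, hf]; exact card_comap_mk M Sb
  have hKpK : Kp ≤ K := by
    rw [← hcK, hKp]; exact Subgroup.comap_mono hSbK
  obtain ⟨P0⟩ : Nonempty (Sylow p Kp) := inferInstance
  set P : Subgroup G := (P0 : Subgroup Kp).map Kp.subtype with hP
  have hPcard : Nat.card P = Nat.card P0 := by
    rw [hP]
    exact Nat.card_congr ((P0 : Subgroup Kp).equivMapOfInjective Kp.subtype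
      Kp.subtype_injective).symm.toEquiv
  have hPKp : P ≤ Kp := by
    rw [hP]; exact Subgroup.map_subtype_le _
  have hdvd : Nat.card Sb ∣ Nat.card P := by
    rw [hPcard, hSbcard]
    apply P0.pow_dvd_card_of_pow_dvd_card
    rw [← hSbcard, hKpcard]
    exact dvd_mul_left _ _
  have hSP : Nat.card Sb ≤ Nat.card P := Nat.le_of_dvd Nat.card_pos hdvd
  refine ⟨p, hp, hpm, P, le_trans hPKp hKpK, ?_, ?_, ?_⟩
  · rw [hP]; exact P0.isPGroup'.map Kp.subtype
  · rw [hcard]
    apply Nat.mul_le_mul_left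
    calc Nat.card Kb ≤ (p ^ (Nat.card Kb).factorization p) ^ m := hbig
      _ = (Nat.card Sb) ^ m := by rw [hSbcard]
      _ ≤ (Nat.card P) ^ m := Nat.pow_le_pow_left hSP m
  · set N := Subgroup.normalizer (P : Set G) with hN
    have htop : N ⊔ Kp = ⊤ := Sylow.normalizer_sup_eq_top P0
    have h1 : Kp.index = Kp.relIndex N := by
      have h11 : Kp.relIndex (N ⊔ Kp) = Kp.relIndex N := Subgroup.relIndex_sup_right N Kp
      rw [htop, Subgroup.relIndex_top_right] at h11
      exact h11
    have h2 : Nat.card (Kp ⊓ N : Subgroup G) * Kp.relIndex N = Nat.card N :=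
by
      have h21 := Subgroup.relIndex_mul_relIndex (⊥ : Subgroup G) (Kp ⊓ N) N bot_le inf_le_right
      rw [Subgroup.relIndex_bot_left, Subgroup.relIndex_bot_left, Subgroup.inf_relIndex_right]
        at h21
      exact h21
    have h3 := Kp.card_mul_index
    have h4 := N.card_mul_index
    have h5 : P ≤ Kp ⊓ N := le_inf hPKp (Subgroup.le_normalizer)
    have h6 : Nat.card P ≤ Nat.card (Kp ⊓ N : Subgroup G) :=
      Subgroup.card_le_of_le h5
    have h7 : 0 < Kp.index := Nat.pos_of_ne_zero Subgroup.index_ne_zero_of_finite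
    have h8 : Nat.card (Kp ⊓ N : Subgroup G) * N.index = Nat.card Kp := by
      apply Nat.eq_of_mul_eq_mul_right h7
      rw [h3, ← h4, ← h2, h1]
      ring
    have h9 : 0 < Nat.card P := Nat.card_pos
    apply Nat.le_of_mul_le_mul_left _ h9
    calc Nat.card P * N.index ≤ Nat.card (Kp ⊓ N : Subgroup G) * N.index :=
          Nat.mul_le_mul_right _ h6
      _ = Nat.card M * Nat.card Sb := by rw [h8, hKpcard]
      _ ≤ Nat.card M * Nat.card P := Nat.mul_le_mul_left _ hSP
      _ = Nat.card P * Nat.card M := mul_comm _ _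

theorem t_DM : P_DM := by
  intro m D δ hm hδ
  have hmR : (0 : ℝ) < m := by exact_mod_cast hm
  set η : ℝ := δ / m with hη
  have hη0 : 0 < η := div_pos hδ hmR
  set c' : ℝ := (η / (1 + η)) ^ D / (1 + η) with hc'
  have hc'0 : 0 < c' := by positivity
  refine ⟨c' / m, by positivity, ?_⟩
  intro G _ _ Q hQn hQD hexp
  have := hQn
  set K : ℕ → Subgroup G := fun i => (derivedSeries Q i).map Q.subtype with hK
  have hKn : ∀ i, (K i).Normal := fun i => ConjAct.normal_of_characteristic_of_normal
  have hKle : ∀ i, K (i + 1) ≤ K i := fun i =>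
    Subgroup.map_mono (derivedSeries_antitone Q (Nat.le_succ i))
  have hK0 : K 0 = Q := by
    simp only [hK, derivedSeries_zero]
    rw [← MonoidHom.range_eq_map, Subgroup.range_subtype]
  have hKQ : ∀ i, K i ≤ Q := fun i => Subgroup.map_subtype_le _
  have hKD : K D = ⊥ := by
    simp only [hK, hQD, Subgroup.map_bot]
  have hKcomm : ∀ i, ∀ x ∈ K i, ∀ y ∈ K i, x * y * x⁻¹ * y⁻¹ ∈ K (i + 1) := by
    rintro i x ⟨x', hx', rfl⟩ y ⟨y', hy', rfl⟩
    refine ⟨x' * y' * x'⁻¹ * y'⁻¹, ?_, by simp⟩
    rw [SetLike.mem_coe, derivedSeries_succ]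
    exact Subgroup.commutator_mem_commutator hx' hy'
  set x : ℕ → ℝ := fun i => (Nat.card (K i) : ℝ) with hx
  have hx1 : ∀ i, 1 ≤ x i := fun i => by
    simp only [hx]; exact_mod_cast Nat.card_pos
  have hxa : ∀ i, x (i + 1) ≤ x i := fun i => by
    simp only [hx]; exact_mod_cast Subgroup.card_le_of_le (hKle i)
  have hxD : x D = 1 := by
    simp only [hx, hKD]; simp
  rcases layer η hη0 D x hx1 hxa hxD with h | ⟨i, hi, h1, h2⟩
  · -- trivial case
    have hQ1 : Nat.card Q = 1 := by
      have : (Nat.card (K 0) : ℝ) = 1 := h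
      rw [hK0] at this
      exact_mod_cast this
    refine ⟨2, Nat.prime_two, by omega, ⊥, bot_le, IsPGroup.of_bot, ?_, ?_⟩
    · rw [hQ1]; simp
    · have : Subgroup.normalizer ((⊥ : Subgroup G) : Set G) = ⊤ :=
        Subgroup.normalizer_eq_top_iff.mpr inferInstance
      rw [this]; simp
  · have := hKn i
    have := hKn (i + 1)
    obtain ⟨p, hp, hpm, P, hPK, hPp, hb1, hb2⟩ := frattini m hm (K i) (K (i + 1)) (hKle i)
      (hKcomm i) (fun y hy => hexp y (hKQ i hy))
    refine ⟨p, hp, hpm, P, le_trans hPK (hKQ i), hPp, ?_, ?_⟩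
    · have hMpos : 0 < x (i + 1) := lt_of_lt_of_le one_pos (hx1 _)
      have hratio : x i / x (i + 1) ≤ (Nat.card P : ℝ) ^ m := by
        rw [div_le_iff₀ hMpos, mul_comm]
        simp only [hx]
        exact_mod_cast hb1
      have hx0 : x 0 = (Nat.card Q : ℝ) := by simp only [hx, hK0]
      have hP0 : (0 : ℝ) ≤ (Nat.card P : ℝ) := Nat.cast_nonneg _
      calc (Nat.card Q : ℝ) ^ (c' / m) = ((Nat.card Q : ℝ) ^ c') ^ (1 / (m : ℝ)) := by
            rw [← Real.rpow_mul (Nat.cast_nonneg _)]; congr 1; ring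
        _ ≤ ((Nat.card P : ℝ) ^ m) ^ (1 / (m : ℝ)) := by
            apply Real.rpow_le_rpow (Real.rpow_nonneg (Nat.cast_nonneg _) _) _ (by positivity)
            rw [← hx0]
            exact le_trans h2 hratio
        _ = (Nat.card P : ℝ) := by
            rw [← Real.rpow_natCast, ← Real.rpow_mul hP0]
            rw [show (m : ℝ) * (1 / (m : ℝ)) = 1 by field_simp]
            exact Real.rpow_one _
    · have hMpos : 0 < x (i + 1) := lt_of_lt_of_le one_pos (hx1 _)
      have hratio : x i / x (i + 1) ≤ (Nat.card P : ℝ) ^ m := by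
        rw [div_le_iff₀ hMpos, mul_comm]
        simp only [hx]
        exact_mod_cast hb1
      have hP0 : (0 : ℝ) ≤ (Nat.card P : ℝ) := Nat.cast_nonneg _
      calc ((Subgroup.normalizer (P : Set G)).index : ℝ) ≤ x (i + 1) := by
            simp only [hx]; exact_mod_cast hb2
        _ ≤ (x i / x (i + 1)) ^ η := h1
        _ ≤ ((Nat.card P : ℝ) ^ m) ^ η := by
            apply Real.rpow_le_rpow _ hratio hη0.le
            exact div_nonneg (le_trans zero_le_one (hx1 _)) hMpos.le
        _ = (Nat.card P : ℝ) ^ δ := by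
            rw [← Real.rpow_natCast, ← Real.rpow_mul hP0]
            congr 1
            rw [hη]; field_simp

end Pool.Agent.TH866.GB_DM
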