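import Pool.Agent.TH322.SQ.TV

set_option autoImplicit false

open Polynomial MeasureTheory
open scoped ENNReal

namespace Pool.Agent.TH866.Pair

open Pool.Agent.TH322.SQ

/-- The choice of the scale: `2 ^ k / 2 ^ L` with `k ≤ 2 L`. -/
lemma scale (L : ℕ) (a b : ℝ) (ha : |a| ≤ 2 ^ L) (hb : |b| ≤ 2 ^ L) (hab : -1 ≤ a * b) :
    ∃ k ≤ 2 * L, ((2 ^ k / 2 ^ L * a - (2 ^ k / 2 ^ L)⁻¹ * b) / 2) ^ 2 + 1 ≤ 3 * max 1 (a * b + 1) := by
  classical
  let Q : ℕ → Prop := fun k => (2 ^ k / 2 ^ L : ℝ)⁻¹ * |b| ≤ max 1 (2 ^ k / 2 ^ L * |a|)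
  have h2L : (0 : ℝ) < 2 ^ L := by positivity
  have hQ : Q (2 * L) := by
    refine le_trans ?_ (le_max_left _ _)
    have h1 : (2 ^ (2 * L) / 2 ^ L : ℝ) = 2 ^ L := by
      rw [two_mul, pow_add]
      field_simp
    rw [h1, inv_mul_le_iff₀ h2L, mul_one]
    exact hb
  have hex : ∃ k, Q k := ⟨_, hQ⟩
  refine ⟨Nat.find hex, Nat.find_min' hex hQ, ?_⟩
  set k := Nat.find hex with hk
  have hQk : Q k := Nat.find_spec hex
  set l : ℝ := 2 ^ k / 2 ^ L with hl
  have hl0 : 0 < l := by positivity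
  set X := l * |a| with hX
  set Y := l⁻¹ * |b| with hY
  have hX0 : 0 ≤ X := by positivity
  have hY0 : 0 ≤ Y := by positivity
  have hYX : Y ≤ max 1 X := hQk
  have hXY : X * Y = |a * b| := by
    rw [hX, hY, abs_mul]
    field_simp
  have hexp : ((l * a - l⁻¹ * b) / 2) ^ 2 = (X ^ 2 + Y ^ 2 - 2 * (a * b)) / 4 := by
    have h1 : X ^ 2 = l ^ 2 * a ^ 2 := by rw [hX, mul_pow, sq_abs]
    have h2 : Y ^ 2 = l⁻¹ ^ 2 * b ^ 2 := by rw [hY, mul_pow, sq_abs]
    have h3 : l * l⁻¹ = 1 := mul_inv_cancel₀ hl0.ne'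
    rw [h1, h2]
    linear_combination (-(a * b) / 2) * h3
  rw [hexp]
  have hm1 : (1 : ℝ) ≤ max 1 (a * b + 1) := le_max_left _ _
  have hm2 : a * b + 1 ≤ max 1 (a * b + 1) := le_max_right _ _
  by_cases hX1 : X ≤ 1
  · have hY1 : Y ≤ 1 := by rwa [max_eq_left hX1] at hYX
    have h1 : X ^ 2 ≤ 1 := by nlinarith
    have h2 : Y ^ 2 ≤ 1 := by nlinarith
    linarith
  · push Not at hX1
    rw [max_eq_right hX1.le] at hYX
    -- the scale is not the smallest one
    have hk0 : k ≠ 0 := by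
      intro h0
      have : X ≤ 1 := by
        rw [hX, hl, h0, pow_zero, one_div, inv_mul_le_iff₀ h2L, mul_one]
        exact ha
      linarith
    have hnot : ¬ Q (k - 1) := Nat.find_min hex (by omega)
    have hl' : (2 ^ (k - 1) / 2 ^ L : ℝ) = l / 2 := by
      obtain ⟨m, hm⟩ := Nat.exists_eq_succ_of_ne_zero hk0
      rw [hl, hm, Nat.succ_sub_one, pow_succ]
      field_simp
    have h4 : X / 2 < 2 * Y := by
      have h5 : max 1 (l / 2 * |a|) < (l / 2)⁻¹ * |b| := by
        have := not_le.1 hnot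
        rwa [hl'] at this
      have h6 : l / 2 * |a| = X / 2 := by rw [hX]; ring
      have h7 : (l / 2)⁻¹ * |b| = 2 * Y := by rw [hY]; field_simp
      rw [h6, h7] at h5
      exact (le_max_right _ _).trans_lt h5
    have h5 : X ^ 2 ≤ 4 * |a * b| := by
      rw [← hXY]
      nlinarith
    have h6 : Y ^ 2 ≤ |a * b| := by
      rw [← hXY]
      nlinarith
    rcases le_total 0 (a * b) with h | h
    · rw [abs_of_nonneg h] at h5 h6
      linarith
    · rw [abs_of_nonpos h] at h5 h6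
      linarith

/-- the positive squares -/
noncomputable def up (l : ℝ) (f g : ℝ[X]) : Fin 2 → ℝ[X] :=
  ![C (l / 2) * f + C (l⁻¹ / 2) * g, C √2]

/-- the negative squares -/
noncomputable def vp (l : ℝ) (f g : ℝ[X]) : Fin 2 → ℝ[X] :=
  ![C (l / 2) * f - C (l⁻¹ / 2) * g, 1]

lemma supp_C_mul (c : ℝ) (f : ℝ[X]) (M : Finset ℕ) (hf : f.support ⊆ M) :
    (C c * f).support ⊆ M := by
  intro m hm
  rw [mem_support_iff, coeff_C_mul] at hm
  exact hf (mem_support_iff.2 (right_ne_zero_of_mul hm))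

lemma supp_C (c : ℝ) (M : Finset ℕ) (h0 : 0 ∈ M) : (C c : ℝ[X]).support ⊆ M := by
  intro m hm
  have := support_C_subset c hm
  rw [Finset.mem_singleton] at this
  rwa [this]

lemma supp_add (f g : ℝ[X]) (M : Finset ℕ) (hf : f.support ⊆ M) (hg : g.support ⊆ M) :
    (f + g).support ⊆ M := by
  intro m hm
  rcases Finset.mem_union.1 (support_add hm) with h | h
  · exact hf h
  · exact hg h

lemma supp_sub (f g : ℝ[X]) (M : Finset ℕ) (hf : f.support ⊆ M) (hg : g.support ⊆ M) :
    (f - g).support ⊆ M := by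
  rw [sub_eq_add_neg]
  exact supp_add f _ M hf (by rw [support_neg]; exact hg)

lemma supp_up (l : ℝ) (f g : ℝ[X]) (M : Finset ℕ) (h0 : 0 ∈ M) (hf : f.support ⊆ M)
    (hg : g.support ⊆ M) (i : Fin 2) : (up l f g i).support ⊆ M := by
  fin_cases i
  · exact supp_add _ _ M (supp_C_mul _ _ M hf) (supp_C_mul _ _ M hg)
  · exact supp_C _ M h0

lemma supp_vp (l : ℝ) (f g : ℝ[X]) (M : Finset ℕ) (h0 : 0 ∈ M) (hf : f.support ⊆ M)
    (hg : g.support ⊆ M) (i : Fin 2) : (vp l f g i).support ⊆ M := by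
  fin_cases i
  · exact supp_sub _ _ M (supp_C_mul _ _ M hf) (supp_C_mul _ _ M hg)
  · have := supp_C 1 M h0
    rw [C_1] at this
    exact this

lemma eval_up (l : ℝ) (f g : ℝ[X]) (x : ℝ) :
    (TH322.SQ.sq (up l f g)).eval x = ((l * f.eval x + l⁻¹ * g.eval x) / 2) ^ 2 + 2 := by
  rw [TH322.SQ.sq, Fin.sum_univ_two]
  simp only [up, Matrix.cons_val_zero, Matrix.cons_val_one, Matrix.cons_val_fin_one, eval_add,
    eval_pow, eval_mul, eval_C, Real.sq_sqrt (show (0 : ℝ) ≤ 2 by norm_num)]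
  ring

lemma eval_vp (l : ℝ) (f g : ℝ[X]) (x : ℝ) :
    (TH322.SQ.sq (vp l f g)).eval x = ((l * f.eval x - l⁻¹ * g.eval x) / 2) ^ 2 + 1 := by
  rw [TH322.SQ.sq, Fin.sum_univ_two]
  simp only [vp, Matrix.cons_val_zero, Matrix.cons_val_one, Matrix.cons_val_fin_one, eval_add,
    eval_sub, eval_pow, eval_mul, eval_C, eval_one]
  ring

lemma diff (l : ℝ) (hl : l ≠ 0) (f g : ℝ[X]) (x : ℝ) :
    (TH322.SQ.sq (up l f g)).eval x = (TH322.SQ.sq (vp l f g)).eval x + (f.eval x * g.eval x + 1) := by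
  rw [eval_up, eval_vp]
  have h3 : l * l⁻¹ = 1 := mul_inv_cancel₀ hl
  linear_combination (f.eval x * g.eval x) * h3

/-- **Robust sign changes of `f g + 1`.** -/
theorem robust (f g : ℝ[X]) (M : Finset ℕ) (h0 : 0 ∈ M) (hf : f.support ⊆ M) (hg : g.support ⊆ M)
    (L : ℕ) (δ : ℝ) (hδ : 0 < δ) (hδ1 : δ ≤ 1) (x : ℕ → ℝ) (hx : StrictMono x) (n : ℕ)
    (he : ∀ j ≤ n, Even j → |f.eval (x j)| ≤ 2 ^ L ∧ |g.eval (x j)| ≤ 2 ^ L ∧
      δ ≤ f.eval (x j) * g.eval (x j) + 1)
    (ho : ∀ j ≤ n, Odd j → f.eval (x j) * g.eval (x j) + 1 ≤ 0) :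
    (n : ℝ) ≤ 604 * (2 * L + 1) * M.card / δ := by
  classical
  -- the scale of an even index
  have hsc : ∀ j : ℕ, ∃ k ≤ 2 * L, j ≤ n → Even j →
      ((2 ^ k / 2 ^ L * f.eval (x j) - (2 ^ k / 2 ^ L)⁻¹ * g.eval (x j)) / 2) ^ 2 + 1 ≤
        3 * max 1 (f.eval (x j) * g.eval (x j) + 1) := by
    intro j
    by_cases h : j ≤ n ∧ Even j
    · obtain ⟨h1, h2, h3⟩ := he j h.1 h.2
      obtain ⟨k, hk, h4⟩ := scale L _ _ h1 h2 (by linarith)
      exact ⟨k, hk, fun _ _ => h4⟩
    · exact ⟨0, Nat.zero_le _, fun h1 h2 => absurd ⟨h1, h2⟩ h⟩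
  choose κ hκ hκ2 using hsc
  set S : Finset ℕ := (Finset.range n).filter Even with hS
  have hfib : S.card = ∑ k ∈ Finset.range (2 * L + 1), (S.filter (fun j => κ j = k)).card := by
    apply Finset.card_eq_sum_card_fiberwise
    intro j _
    rw [Finset.mem_coe, Finset.mem_range]
    have := hκ j
    omega
  have hone : ∀ k ∈ Finset.range (2 * L + 1),
      ((S.filter (fun j => κ j = k)).card : ℝ) ≤ 302 * M.card / δ := by
    intro k _
    set l : ℝ := 2 ^ k / 2 ^ L with hl
    have hl0 : 0 < l := by positivity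
    have hpos : ∀ y, 0 < (TH322.SQ.sq (vp l f g)).eval y := by
      intro y
      rw [eval_vp]
      positivity
    have htv := tv_le (up l f g) (vp l f g) M (supp_up l f g M h0 hf hg) (supp_vp l f g M h0 hf hg)
      x hx n (fun j _ => hpos _)
    have h1 : ∀ j ∈ S.filter (fun j => κ j = k), δ / 24 ≤
        |Real.arctan √((TH322.SQ.sq (up l f g)).eval (x (j + 1)) / (TH322.SQ.sq (vp l f g)).eval (x (j + 1)))
          - Real.arctan √((TH322.SQ.sq (up l f g)).eval (x j) / (TH322.SQ.sq (vp l f g)).eval (x j))| := by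
      intro j hj
      rw [Finset.mem_filter, hS, Finset.mem_filter, Finset.mem_range] at hj
      obtain ⟨⟨hjn, hje⟩, hjk⟩ := hj
      have hgap := arctan_gap (δ / 3) (by linarith) (by linarith)
      have hA : Real.arctan √(1 + δ / 3) ≤
          Real.arctan √((TH322.SQ.sq (up l f g)).eval (x j) / (TH322.SQ.sq (vp l f g)).eval (x j)) := by
        refine Real.arctan_strictMono.monotone (Real.sqrt_le_sqrt ?_)
        rw [le_div_iff₀ (hpos _), diff l hl0.ne']
        have h2 := hκ2 j hjn.le hje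
        rw [hjk, ← hl, ← eval_vp] at h2
        have h3 := (he j hjn.le hje).2.2
        have h4 := hpos (x j)
        set N := (TH322.SQ.sq (vp l f g)).eval (x j)
        set w := f.eval (x j) * g.eval (x j) + 1
        rcases le_total w 1 with hw | hw
        · rw [max_eq_left hw] at h2
          nlinarith
        · rw [max_eq_right hw] at h2
          nlinarith
      have hB : Real.arctan √((TH322.SQ.sq (up l f g)).eval (x (j + 1)) / (TH322.SQ.sq (vp l f g)).eval (x (j + 1))) ≤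
          Real.arctan 1 := by
        refine Real.arctan_strictMono.monotone ?_
        rw [Real.sqrt_le_left (by norm_num : (0 : ℝ) ≤ 1), one_pow, div_le_one (hpos _),
          diff l hl0.ne']
        have := ho (j + 1) hjn hje.add_one
        linarith
      rw [abs_sub_comm]
      exact le_trans (by linarith) (le_abs_self _)
    have h2 : ((S.filter (fun j => κ j = k)).card : ℝ) * (δ / 24) ≤ 4 * Real.pi * M.card := by
      refine le_trans ?_ htv
      have h3 := Finset.sum_le_sum h1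
      rw [Finset.sum_const, nsmul_eq_mul] at h3
      refine h3.trans (Finset.sum_le_sum_of_subset_of_nonneg ?_ (fun _ _ _ => abs_nonneg _))
      intro j hj
      rw [Finset.mem_filter, hS, Finset.mem_filter] at hj
      exact hj.1.1
    rw [le_div_iff₀ hδ]
    have hpi := Real.pi_lt_d4
    have hM : (0 : ℝ) ≤ M.card := Nat.cast_nonneg _
    nlinarith
  have hSn : (n : ℝ) ≤ 2 * S.card := by
    have h1 : n ≤ 2 * S.card := by
      have h2 : ∀ m : ℕ, m ≤ 2 * ((Finset.range m).filter Even).card := by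
        intro m
        induction m using Nat.strong_induction_on with
        | _ m ih =>
          rcases m with _ | m
          · simp
          · rw [Finset.range_add_one, Finset.filter_insert]
            by_cases hm : Even m
            · rw [if_pos hm, Finset.card_insert_of_notMem (by simp)]
              have := ih m (by omega)
              omega
            · rw [if_neg hm]
              rcases m with _ | m
              · exact absurd (by simp) hm
              · have hm' : Even m := by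
                  rw [Nat.even_add_one, not_not] at hm
                  exact hm
                rw [Finset.range_add_one, Finset.filter_insert, if_pos hm',
                  Finset.card_insert_of_notMem (by simp)]
                have := ih m (by omega)
                omega
      exact h2 n
    exact_mod_cast h1
  have hSb : (S.card : ℝ) ≤ (2 * L + 1) * (302 * M.card / δ) := by
    rw [hfib, Nat.cast_sum]
    refine (Finset.sum_le_sum hone).trans ?_
    rw [Finset.sum_const, Finset.card_range, nsmul_eq_mul]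
    push_cast
    exact le_rfl
  calc (n : ℝ) ≤ 2 * S.card := hSn
    _ ≤ 2 * ((2 * L + 1) * (302 * M.card / δ)) := by linarith
    _ = 604 * (2 * L + 1) * M.card / δ := by ring

/-- **Pencils of pairs.** -/
theorem pencil (f g : ℝ[X]) (M : Finset ℕ) (h0 : 0 ∈ M) (hf : f.support ⊆ M)
    (hg : g.support ⊆ M) : ∃ F : ℝ → ℝ≥0∞, Measurable F ∧
      (∀ t : ℝ, ((((C ((1 - t) / 2) * f + C ((1 + t) / 2) * g) *
        (C ((1 + t) / 2) * f + C ((1 - t) / 2) * g) + 1).roots.toFinset.card : ℕ) : ℝ≥0∞) ≤ F t) ∧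
      ∫⁻ t : ℝ, F t * ENNReal.ofReal ((Real.pi * (1 + t ^ 2))⁻¹) ≤ 10 * (M.card : ℝ≥0∞) := by
  obtain ⟨F, hF1, hF2, hF3⟩ := main_avg
    (![C (1 / 2) * f + C (1 / 2) * g, 1] : Fin 2 → ℝ[X])
    (![C (1 / 2) * f - C (1 / 2) * g] : Fin 1 → ℝ[X]) M
    (by
      intro i
      fin_cases i
      · exact supp_add _ _ M (supp_C_mul _ _ M hf) (supp_C_mul _ _ M hg)
      · have := supp_C 1 M h0
        rw [C_1] at this
        exact this)
    (by
      intro i
      fin_cases i
      exact supp_sub _ _ M (supp_C_mul _ _ M hf) (supp_C_mul _ _ M hg))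
  rw [nu_lint F hF1] at hF3
  refine ⟨F, hF1, fun t => ?_, hF3⟩
  have h1 := hF2 t
  have h2 : mem (![C (1 / 2) * f + C (1 / 2) * g, 1] : Fin 2 → ℝ[X])
      (![C (1 / 2) * f - C (1 / 2) * g] : Fin 1 → ℝ[X]) t =
      (C ((1 - t) / 2) * f + C ((1 + t) / 2) * g) *
        (C ((1 + t) / 2) * f + C ((1 - t) / 2) * g) + 1 := by
    rw [mem, TH322.SQ.sq, TH322.SQ.sq, Fin.sum_univ_two, Fin.sum_univ_one]
    simp only [Matrix.cons_val_zero, Matrix.cons_val_one, Matrix.cons_val_fin_one]
    have e1 : (C ((1 - t) / 2) : ℝ[X]) = C (1 / 2) - C (1 / 2) * C t := by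
      rw [← C_mul, ← C_sub]
      congr 1
      ring
    have e2 : (C ((1 + t) / 2) : ℝ[X]) = C (1 / 2) + C (1 / 2) * C t := by
      rw [← C_mul, ← C_add]
      congr 1
      ring
    rw [e1, e2, C_pow]
    ring
  rw [h2] at h1
  exact h1

end Pool.Agent.TH866.Pair
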