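import Pool.Agent.TH673.Tau2.Pert
import Pool.Agent.H746R4.Tau.Main

set_option autoImplicit false

namespace Pool.Agent.TH866.TauBin

open Polynomial Finset Filter Topology

/-- A polynomial with at most `t` monomials is a sum of `t` monomials (some may vanish). -/
lemma exists_monomials (t : ℕ) (p : ℝ[X]) (hp : p.support.card ≤ t) :
    ∃ (c : Fin t → ℝ) (a : Fin t → ℕ), p = ∑ l, C (c l) * X ^ a l := by
  induction t generalizing p with
  | zero =>
    refine ⟨fun l => l.elim0, fun l => l.elim0, ?_⟩
    have h0 : p = 0 := by simpa using hp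
    simp [h0]
  | succ t ih =>
    by_cases hp0 : p = 0
    · exact ⟨fun _ => 0, fun _ => 0, by simp [hp0]⟩
    · have h1 : p.eraseLead.support.card ≤ t := by
        have := eraseLead_support_card_lt hp0
        omega
      obtain ⟨c, a, h⟩ := ih _ h1
      refine ⟨Fin.cons p.leadingCoeff c, Fin.cons p.natDegree a, ?_⟩
      rw [Fin.sum_univ_succ]
      simp only [Fin.cons_zero, Fin.cons_succ]
      rw [← h, add_comm]
      exact (eraseLead_add_C_mul_X_pow p).symm

/-- First-order expansion of a product of binomials. -/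
lemma tendsto_prod (t : ℕ) (p : Fin t → ℝ) :
    Tendsto (fun η : ℝ => (∏ l, (1 + η * p l) - 1) / η) (𝓝[>] 0) (𝓝 (∑ l, p l)) := by
  induction t with
  | zero => simp
  | succ t ih =>
    have h1 := ih (fun l => p l.succ)
    have h0 : Tendsto (fun η : ℝ => 1 + η * p 0) (𝓝[>] 0) (𝓝 (1 + 0 * p 0)) :=
      ((continuous_const.add (continuous_id.mul continuous_const)).tendsto 0).mono_left
        nhdsWithin_le_nhds
    have h2 := (h1.mul h0).add_const (p 0)
    have h3 : (∑ l : Fin t, p l.succ) * (1 + 0 * p 0) + p 0 = ∑ l, p l := by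
      rw [Fin.sum_univ_succ]
      ring
    rw [h3] at h2
    refine h2.congr' ?_
    filter_upwards [self_mem_nhdsWithin] with η hη
    have hη' : η ≠ 0 := ne_of_gt hη
    rw [Fin.prod_univ_succ]
    field_simp
    ring

/-- First-order expansion of a difference of two products of binomials. -/
lemma tendsto_diff (t : ℕ) (p q : Fin t → ℝ) :
    Tendsto (fun η : ℝ => (∏ l, (1 + η * p l) - ∏ l, (1 + η * q l)) / η) (𝓝[>] 0)
      (𝓝 (∑ l, (p l - q l))) := by
  have h := (tendsto_prod t p).sub (tendsto_prod t q)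
  rw [← Finset.sum_sub_distrib] at h
  refine h.congr fun η => ?_
  rw [← sub_div]
  congr 1
  ring

/-- Expansion of a product of differences over the sets of factors. -/
lemma prod_expand {m : ℕ} (A B : Fin m → ℝ) (η : ℝ) :
    ∏ j, ((A j - B j) / η) =
      ∑ S : Finset (Fin m), (-1) ^ (Sᶜ).card / η ^ m * ∏ j, (if j ∈ S then A j else B j) := by
  have h1 : ∏ j, ((A j - B j) / η) = (∏ j, (A j + (-1) * B j)) / η ^ m := by
    rw [Finset.prod_div_distrib]
    congr 1
    · apply Finset.prod_congr rfl
      intro j _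
      ring
    · simp
  rw [h1, Finset.prod_add, Finset.powerset_univ, Finset.sum_div]
  apply Finset.sum_congr rfl
  intro S _
  rw [← Finset.prod_mul_prod_compl S (fun j => if j ∈ S then A j else B j),
    Finset.prod_mul_distrib, Finset.prod_const, ← Finset.compl_eq_univ_sdiff,
    Finset.prod_congr rfl (fun j hj => if_pos hj : ∀ j ∈ S, (if j ∈ S then A j else B j) = A j),
    Finset.prod_congr rfl (fun j hj => if_neg (Finset.mem_compl.mp hj) :
      ∀ j ∈ Sᶜ, (if j ∈ S then A j else B j) = B j)]
  ring

/-- Roots in disjoint intervals with sign changes. -/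
lemma exists_roots {κ : Type*} [Fintype κ] (f : ℝ[X]) (u v : κ → ℝ)
    (huv : ∀ i, u i < v i) (hdis : ∀ i j, i ≠ j → v i ≤ u j ∨ v j ≤ u i)
    (hs : ∀ i, f.eval (u i) * f.eval (v i) < 0) :
    ∃ T : Finset ℝ, Fintype.card κ ≤ T.card ∧
      ∀ x ∈ T, f.eval x = 0 ∧ ∃ i, u i < x ∧ x < v i := by
  classical
  have hroot : ∀ i, ∃ r, (u i < r ∧ r < v i) ∧ f.eval r = 0 := by
    intro i
    have hcont : ContinuousOn (fun x => f.eval x) (Set.Icc (u i) (v i)) := f.continuous.continuousOn
    rcases lt_or_ge (f.eval (u i)) 0 with h | h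
    · have h1 : 0 < f.eval (v i) := by
        by_contra hcon
        push Not at hcon
        have := mul_nonneg_of_nonpos_of_nonpos h.le hcon
        linarith [hs i]
      obtain ⟨r, hr, hr0⟩ := intermediate_value_Ioo (huv i).le hcont ⟨h, h1⟩
      exact ⟨r, hr, hr0⟩
    · have h0 : 0 < f.eval (u i) := by
        rcases h.lt_or_eq with h' | h'
        · exact h'
        · have := hs i
          rw [← h', zero_mul] at this
          exact absurd this (lt_irrefl _)
      have h1 : f.eval (v i) < 0 := by
        by_contra hcon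
        push Not at hcon
        have := mul_nonneg h hcon
        linarith [hs i]
      obtain ⟨r, hr, hr0⟩ := intermediate_value_Ioo' (huv i).le hcont ⟨h1, h0⟩
      exact ⟨r, hr, hr0⟩
  choose r hr hr0 using hroot
  refine ⟨univ.image r, ?_, ?_⟩
  · rw [Finset.card_image_of_injective, Finset.card_univ]
    intro i j hij
    by_contra hne
    rcases hdis i j hne with h | h
    · have h1 := (hr i).2
      have h2 := (hr j).1
      rw [hij] at h1
      linarith
    · have h1 := (hr j).2
      have h2 := (hr i).1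
      rw [hij] at h2
      linarith
  · intro x hx
    obtain ⟨i, _, rfl⟩ := Finset.mem_image.mp hx
    exact ⟨hr0 i, i, hr i⟩

/-- **Reduction to products of binomials `1 + c x ^ a` with `c ≥ 0`, all close to `1`.** -/
theorem transfer (K m : ℕ) (t : Fin m → ℕ) (F : Fin K → Fin m → ℝ[X])
    (hF : ∀ i j, (F i j).support.card ≤ t j) (hne : ∑ i, ∏ j, F i j ≠ 0) (δ : ℝ) (hδ : 0 < δ) :
    ∃ (lam : Fin (K * 2 ^ m + 1) → ℝ)
      (c : Fin (K * 2 ^ m + 1) → Fin (∑ j, t j) → ℝ)
      (a : Fin (K * 2 ^ m + 1) → Fin (∑ j, t j) → ℕ),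
      (∀ i j, 0 ≤ c i j) ∧ (∑ i, C (lam i) * ∏ j, (1 + C (c i j) * X ^ a i j)) ≠ 0 ∧
      ∃ T : Finset ℝ, (∑ i, ∏ j, F i j).roots.toFinset.card ≤ T.card ∧
        ∀ x ∈ T, (∑ i, C (lam i) * ∏ j, (1 + C (c i j) * X ^ a i j)).eval x = 0 ∧
          ∀ i, ∑ j, c i j * |x| ^ a i j ≤ δ := by
  classical
  choose c a hca using fun i j => exists_monomials (t j) (F i j) (hF i j)
  set f := ∑ i, ∏ j, F i j with hf
  obtain ⟨κ, _, _, u, v, s, hcard, huv, hdis, hs, hs0⟩ :=
    Pool.Agent.TH673.Tau2.exists_pert f hne
  let I := Option (Fin K × Finset (Fin m))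
  let J := Σ j : Fin m, Fin (t j)
  have hI : Fintype.card (Fin (K * 2 ^ m + 1)) = Fintype.card I := by
    rw [Fintype.card_option, Fintype.card_prod, Fintype.card_finset, Fintype.card_fin,
      Fintype.card_fin, Fintype.card_fin]
  have hJ : Fintype.card (Fin (∑ j, t j)) = Fintype.card J := by
    rw [Fintype.card_sigma, Fintype.card_fin]
    simp
  let eI := Fintype.equivOfCardEq hI
  let eJ := Fintype.equivOfCardEq hJ
  let lam : ℝ → I → ℝ := fun η p => match p with
    | none => s
    | some (_, S) => (-1) ^ (Sᶜ).card / η ^ m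
  let cc : ℝ → I → J → ℝ := fun η p q => match p with
    | none => 0
    | some (i, S) => η * (if q.1 ∈ S then max (c i q.1 q.2) 0 else max (-c i q.1 q.2) 0)
  let aa : I → J → ℕ := fun p q => match p with
    | none => 0
    | some (i, _) => a i q.1 q.2
  let G : ℝ → ℝ[X] := fun η => ∑ i, C (lam η (eI i)) *
    ∏ j, (1 + C (cc η (eI i) (eJ j)) * X ^ aa (eI i) (eJ j))
  have hG : ∀ η, G η = ∑ p : I, C (lam η p) * ∏ q : J, (1 + C (cc η p q) * X ^ aa p q) := by
    intro η
    apply Fintype.sum_equiv eI
    intro i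
    congr 1
    apply Fintype.prod_equiv eJ
    intro j
    rfl
  have hGeval : ∀ η x, (G η).eval x =
      s + ∑ i, ∏ j, ((∏ l, (1 + η * (max (c i j l) 0 * x ^ a i j l)) -
        ∏ l, (1 + η * (max (-c i j l) 0 * x ^ a i j l))) / η) := by
    intro η x
    rw [hG, Fintype.sum_option, eval_add, Fintype.sum_prod_type]
    have h1 : (C (lam η none) * ∏ q : J, (1 + C (cc η none q) * X ^ aa none q)).eval x = s := by
      simp [lam, cc]
    rw [h1, eval_finsetSum]
    congr 1
    apply Finset.sum_congr rfl
    intro i _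
    rw [prod_expand, eval_finsetSum]
    apply Finset.sum_congr rfl
    intro S _
    rw [eval_mul, eval_C, eval_prod, Fintype.prod_sigma]
    congr 1
    apply Finset.prod_congr rfl
    intro j _
    split_ifs with hj
    · apply Finset.prod_congr rfl
      intro l _
      simp only [cc, aa, if_pos hj, eval_add, eval_one, eval_mul, eval_C, eval_pow, eval_X]
      ring
    · apply Finset.prod_congr rfl
      intro l _
      simp only [cc, aa, if_neg hj, eval_add, eval_one, eval_mul, eval_C, eval_pow, eval_X]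
      ring
  have hlim : ∀ x, Tendsto (fun η => (G η).eval x) (𝓝[>] 0) (𝓝 ((f + C s).eval x)) := by
    intro x
    have h1 : (f + C s).eval x = s + ∑ i, ∏ j,
        ∑ l, (max (c i j l) 0 * x ^ a i j l - max (-c i j l) 0 * x ^ a i j l) := by
      rw [eval_add, eval_C, hf, eval_finsetSum, add_comm]
      congr 1
      apply Finset.sum_congr rfl
      intro i _
      rw [eval_prod]
      apply Finset.prod_congr rfl
      intro j _
      conv_lhs => rw [hca i j]
      rw [eval_finsetSum]
      apply Finset.sum_congr rfl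
      intro l _
      have h2 : max (c i j l) 0 - max (-c i j l) 0 = c i j l := by
        rcases le_total 0 (c i j l) with h | h
        · rw [max_eq_left h, max_eq_right (by linarith)]
          ring
        · rw [max_eq_right h, max_eq_left (by linarith)]
          ring
      rw [← sub_mul, h2]
      simp
    rw [h1]
    simp only [hGeval]
    apply Tendsto.const_add
    apply tendsto_finsetSum
    intro i _
    apply tendsto_finsetProd
    intro j _
    exact tendsto_diff (t j) (fun l => max (c i j l) 0 * x ^ a i j l)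
      (fun l => max (-c i j l) 0 * x ^ a i j l)
  have hkey : ∀ x, (f + C s).eval x ≠ 0 →
      ∀ᶠ η : ℝ in 𝓝[>] 0, 0 < (f + C s).eval x * (G η).eval x := by
    intro x hx
    have h1 := (hlim x).const_mul ((f + C s).eval x)
    exact h1.eventually (lt_mem_nhds (mul_self_pos.mpr hx))
  have hne_u : ∀ i, (f + C s).eval (u i) ≠ 0 := fun i h => by
    have := hs i
    rw [h, zero_mul] at this
    exact lt_irrefl _ this
  have hne_v : ∀ i, (f + C s).eval (v i) ≠ 0 := fun i h => by
    have := hs i
    rw [h, mul_zero] at this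
    exact lt_irrefl _ this
  obtain ⟨x0, hx0⟩ : ∃ x, (f + C s).eval x ≠ 0 := by
    by_contra hcon
    push Not at hcon
    exact hs0 (Polynomial.funext (fun x => by rw [hcon x, eval_zero]))
  set B : ℝ := ∑ i, (|u i| + |v i|) with hB
  have hev1 := hkey x0 hx0
  have hev2 : ∀ᶠ η : ℝ in 𝓝[>] 0, ∀ i, 0 < (f + C s).eval (u i) * (G η).eval (u i) :=
    eventually_all.mpr fun i => hkey _ (hne_u i)
  have hev3 : ∀ᶠ η : ℝ in 𝓝[>] 0, ∀ i, 0 < (f + C s).eval (v i) * (G η).eval (v i) :=
    eventually_all.mpr fun i => hkey _ (hne_v i)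
  have hev4 : ∀ᶠ η : ℝ in 𝓝[>] 0, ∀ i, η * ∑ q : J, |c i q.1 q.2| * B ^ a i q.1 q.2 ≤ δ := by
    rw [eventually_all]
    intro i
    have h2 : Tendsto (fun η : ℝ => η * ∑ q : J, |c i q.1 q.2| * B ^ a i q.1 q.2) (𝓝[>] 0)
        (𝓝 (0 * ∑ q : J, |c i q.1 q.2| * B ^ a i q.1 q.2)) :=
      ((continuous_id.mul continuous_const).tendsto 0).mono_left nhdsWithin_le_nhds
    rw [zero_mul] at h2
    filter_upwards [h2.eventually (gt_mem_nhds hδ)] with η hη
    exact hη.le
  have hev5 : ∀ᶠ η : ℝ in 𝓝[>] 0, 0 < η := eventually_mem_nhdsWithin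
  obtain ⟨η, h1, h2, h3, h4, h5⟩ := (hev1.and (hev2.and (hev3.and (hev4.and hev5)))).exists
  have hcc : ∀ p q, 0 ≤ cc η p q := by
    rintro (_ | ⟨i, S⟩) q
    · exact le_rfl
    · simp only [cc]
      apply mul_nonneg h5.le
      split_ifs <;> exact le_max_right _ _
  refine ⟨fun i => lam η (eI i), fun i j => cc η (eI i) (eJ j), fun i j => aa (eI i) (eJ j),
    fun i j => hcc _ _, ?_, ?_⟩
  · intro h0
    change G η = 0 at h0
    rw [h0, eval_zero, mul_zero] at h1
    exact lt_irrefl _ h1
  · have hsc : ∀ i, (G η).eval (u i) * (G η).eval (v i) < 0 := by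
      intro i
      have h6 := mul_pos (h2 i) (h3 i)
      have h7 := hs i
      set p := (f + C s).eval (u i)
      set q := (f + C s).eval (v i)
      set p' := (G η).eval (u i)
      set q' := (G η).eval (v i)
      have h8 : p * p' * (q * q') = (p * q) * (p' * q') := by ring
      rw [h8] at h6
      by_contra hcon
      push Not at hcon
      have := mul_nonpos_of_nonpos_of_nonneg h7.le hcon
      linarith
    obtain ⟨T, hT1, hT2⟩ := exists_roots (G η) u v huv hdis hsc
    refine ⟨T, hcard.trans hT1, ?_⟩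
    intro x hx
    obtain ⟨hx1, i0, hx2, hx3⟩ := hT2 x hx
    refine ⟨hx1, ?_⟩
    have hxB : |x| ≤ B := by
      have h6 : |u i0| + |v i0| ≤ B :=
        Finset.single_le_sum (f := fun i => |u i| + |v i|) (fun i _ => by positivity)
          (Finset.mem_univ i0)
      have h7 : |x| ≤ |u i0| + |v i0| := by
        rw [abs_le]
        have h8 := neg_abs_le (u i0)
        have h9 := le_abs_self (v i0)
        have h10 := abs_nonneg (u i0)
        have h11 := abs_nonneg (v i0)
        constructor <;> linarith
      exact h7.trans h6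
    have hmain : ∀ p : I, ∑ q : J, cc η p q * |x| ^ aa p q ≤ δ := by
      rintro (_ | ⟨i, S⟩)
      · have h6 : ∑ q : J, cc η none q * |x| ^ aa none q = 0 := by
          apply Finset.sum_eq_zero
          intro q _
          simp [cc]
        change ∑ q : J, cc η none q * |x| ^ aa none q ≤ δ
        rw [h6]
        exact hδ.le
      · refine le_trans ?_ (h4 i)
        rw [Finset.mul_sum]
        apply Finset.sum_le_sum
        intro q _
        change η * (if q.1 ∈ S then max (c i q.1 q.2) 0 else max (-c i q.1 q.2) 0) *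
          |x| ^ a i q.1 q.2 ≤ η * (|c i q.1 q.2| * B ^ a i q.1 q.2)
        rw [mul_assoc]
        apply mul_le_mul_of_nonneg_left _ h5.le
        apply mul_le_mul
        · split_ifs
          · exact max_le (le_abs_self _) (abs_nonneg _)
          · exact max_le (neg_le_abs _) (abs_nonneg _)
        · exact pow_le_pow_left₀ (abs_nonneg _) hxB _
        · positivity
        · positivity
    intro i
    have h6 : ∑ j, cc η (eI i) (eJ j) * |x| ^ aa (eI i) (eJ j) =
        ∑ q : J, cc η (eI i) q * |x| ^ aa (eI i) q :=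
      Fintype.sum_equiv eJ _ _ (fun j => rfl)
    rw [h6]
    exact hmain (eI i)

end Pool.Agent.TH866.TauBin
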