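import Pool.Agent.TH866.TauBin

set_option autoImplicit false

namespace Pool.Agent.TH866.TauGlue

open Polynomial Finset Filter Topology

/-- A sum of `k` products of two `t`-sparse polynomials with `r` strict sign changes on disjoint
positive intervals. -/
def Good (k t r : ℕ) : Prop :=
  ∃ (F : Fin k → Fin 2 → ℝ[X]) (a c : Fin r → ℝ), (∀ i j, (F i j).support.card ≤ t) ∧
    (∀ i, 0 < a i) ∧ (∀ i, a i < c i) ∧ (∀ i j, i ≠ j → c i ≤ a j ∨ c j ≤ a i) ∧
    ∀ i, (∑ i, ∏ j, F i j).eval (a i) * (∑ i, ∏ j, F i j).eval (c i) < 0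

lemma good_of {κ ι : Type} [Fintype κ] [Fintype ι] (F : κ → Fin 2 → ℝ[X]) (a c : ι → ℝ)
    (k t r : ℕ) (hk : Fintype.card κ ≤ k) (hr : r ≤ Fintype.card ι)
    (hF : ∀ i j, (F i j).support.card ≤ t) (ha : ∀ i, 0 < a i) (hac : ∀ i, a i < c i)
    (hdis : ∀ i j, i ≠ j → c i ≤ a j ∨ c j ≤ a i)
    (hs : ∀ i, (∑ i, ∏ j, F i j).eval (a i) * (∑ i, ∏ j, F i j).eval (c i) < 0) : Good k t r := by
  classical
  obtain ⟨e⟩ : Nonempty (κ ↪ Fin k) := Function.Embedding.nonempty_of_card_le (by simpa using hk)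
  obtain ⟨e'⟩ : Nonempty (Fin r ↪ ι) := Function.Embedding.nonempty_of_card_le (by simpa using hr)
  have hsum : ∑ i, ∏ j, Function.extend e F 0 i j = ∑ i, ∏ j, F i j := by
    symm
    apply Fintype.sum_of_injective e e.injective
    · intro i hi
      rw [Function.extend_apply' _ _ _ (by simpa using hi)]
      simp
    · intro i
      rw [e.injective.extend_apply]
  refine ⟨Function.extend e F 0, fun i => a (e' i), fun i => c (e' i), ?_, fun i => ha _,
    fun i => hac _, fun i j hij => hdis _ _ (fun h => hij (e'.injective h)), ?_⟩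
  · intro i j
    by_cases h : ∃ x, e x = i
    · obtain ⟨x, rfl⟩ := h
      rw [e.injective.extend_apply]
      exact hF x j
    · rw [Function.extend_apply' _ _ _ h]
      simp
  · intro i
    rw [hsum]
    exact hs _

lemma Good.mono {k t r k' t' r' : ℕ} (h : Good k t r) (hk : k ≤ k') (ht : t ≤ t') (hr : r' ≤ r) :
    Good k' t' r' := by
  obtain ⟨F, a, c, h1, h2, h3, h4, h5⟩ := h
  exact good_of F a c k' t' r' (by simpa using hk) (by simpa using hr)
    (fun i j => (h1 i j).trans ht) h2 h3 h4 h5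

lemma sgn_transfer {p q p' q' : ℝ} (h : p * q < 0) (h1 : 0 < p * p') (h2 : 0 < q * q') :
    p' * q' < 0 := by
  have h3 := mul_pos h1 h2
  have h4 : p * p' * (q * q') = (p * q) * (p' * q') := by ring
  rw [h4] at h3
  by_contra hcon
  push Not at hcon
  have := mul_nonpos_of_nonpos_of_nonneg h.le hcon
  linarith

/-- The dominating scale. -/
lemma dom {B x : ℝ} (hB : 1 < B) (hx : 0 < x) (g : ℕ) (h1 : B ^ (2 * g) < B * x)
    (h2 : x < B ^ (2 * g + 1)) (h : ℕ) (hne : h ≠ g) : x ^ h / B ^ (h ^ 2) < x ^ g / B ^ (g ^ 2) := by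
  have hB0 : 0 < B := by linarith
  rcases lt_or_gt_of_ne hne with hlt | hlt
  · obtain ⟨e, rfl⟩ : ∃ e, g = h + e + 1 := ⟨g - h - 1, by omega⟩
    rw [div_lt_div_iff₀ (by positivity) (by positivity)]
    have h3 : B ^ (2 * h + 2 * e + 1) < x := by
      have h4 : B ^ (2 * (h + e + 1)) = B * B ^ (2 * h + 2 * e + 1) := by ring
      rw [h4] at h1
      exact lt_of_mul_lt_mul_left h1 hB0.le
    have h5 : B ^ (2 * h + e + 1) < x :=
      lt_of_le_of_lt (pow_le_pow_right₀ hB.le (by omega)) h3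
    have h6 : (B ^ (2 * h + e + 1)) ^ (e + 1) < x ^ (e + 1) :=
      pow_lt_pow_left₀ h5 (by positivity) (by omega)
    have h7 : x ^ h * B ^ ((h + e + 1) ^ 2) =
        (x ^ h * B ^ (h ^ 2)) * (B ^ (2 * h + e + 1)) ^ (e + 1) := by
      rw [← pow_mul, mul_assoc, ← pow_add]
      congr 2
      ring
    have h8 : x ^ (h + e + 1) * B ^ (h ^ 2) = (x ^ h * B ^ (h ^ 2)) * x ^ (e + 1) := by ring
    rw [h7, h8]
    exact mul_lt_mul_of_pos_left h6 (by positivity)
  · obtain ⟨e, rfl⟩ : ∃ e, h = g + e + 1 := ⟨h - g - 1, by omega⟩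
    rw [div_lt_div_iff₀ (by positivity) (by positivity)]
    have h5 : x < B ^ (2 * g + e + 1) :=
      lt_of_lt_of_le h2 (pow_le_pow_right₀ hB.le (by omega))
    have h6 : x ^ (e + 1) < (B ^ (2 * g + e + 1)) ^ (e + 1) :=
      pow_lt_pow_left₀ h5 hx.le (by omega)
    have h7 : x ^ g * B ^ ((g + e + 1) ^ 2) =
        (x ^ g * B ^ (g ^ 2)) * (B ^ (2 * g + e + 1)) ^ (e + 1) := by
      rw [← pow_mul, mul_assoc, ← pow_add]
      congr 2
      ring
    have h8 : x ^ (g + e + 1) * B ^ (g ^ 2) = (x ^ g * B ^ (g ^ 2)) * x ^ (e + 1) := by ring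
    rw [h7, h8]
    exact mul_lt_mul_of_pos_left h6 (by positivity)

/-- A bound for all the data. -/
lemma exists_bound {r : ℕ} (a c : Fin r → ℝ) (ha : ∀ i, 0 < a i) (hac : ∀ i, a i < c i) :
    ∃ B : ℝ, 1 < B ∧ ∀ i, 1 < B * a i ∧ c i < B := by
  refine ⟨2 + ∑ i, (c i + (a i)⁻¹), ?_, ?_⟩
  · have : 0 ≤ ∑ i, (c i + (a i)⁻¹) := by
      apply Finset.sum_nonneg
      intro i _
      have := ha i
      have := hac i
      have : 0 < (a i)⁻¹ := inv_pos.mpr (ha i)
      linarith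
    linarith
  · intro i
    have h1 : c i + (a i)⁻¹ ≤ ∑ i, (c i + (a i)⁻¹) := by
      apply Finset.single_le_sum (f := fun i => c i + (a i)⁻¹) _ (Finset.mem_univ i)
      intro j _
      have := ha j
      have := hac j
      have : 0 < (a j)⁻¹ := inv_pos.mpr (ha j)
      linarith
    have h2 := ha i
    have h3 := hac i
    have h4 : 0 < (a i)⁻¹ := inv_pos.mpr (ha i)
    constructor
    · have h5 : (a i)⁻¹ < 2 + ∑ i, (c i + (a i)⁻¹) := by linarith
      have h6 := mul_lt_mul_of_pos_right h5 h2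
      rwa [inv_mul_cancel₀ h2.ne'] at h6
    · linarith

/-- Scaling. -/
noncomputable def scal (B : ℝ) (g : ℕ) (p : ℝ[X]) : ℝ[X] := p.comp (C (B ^ (2 * g))⁻¹ * X)

lemma scal_eval (B : ℝ) (hB : 0 < B) (g : ℕ) (p : ℝ[X]) (y : ℝ) :
    (scal B g p).eval (B ^ (2 * g) * y) = p.eval y := by
  unfold scal
  rw [eval_comp, eval_mul, eval_C, eval_X]
  congr 1
  have : B ^ (2 * g) ≠ 0 := (pow_pos hB _).ne'
  field_simp

lemma card_comp (p : ℝ[X]) (r : ℝ) : (p.comp (C r * X)).support.card ≤ p.support.card := by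
  apply Finset.card_le_card
  intro n hn
  rw [mem_support_iff, comp_C_mul_X_coeff] at hn
  rw [mem_support_iff]
  exact left_ne_zero_of_mul hn

lemma card_mono_mul (c : ℝ) (n : ℕ) (p : ℝ[X]) : (C c * X ^ n * p).support.card ≤ p.support.card := by
  calc _ ≤ (C c * X ^ n : ℝ[X]).support.card * p.support.card := card_support_mul_le
    _ ≤ 1 * p.support.card := Nat.mul_le_mul_right _ (card_support_C_mul_X_pow_le_one)
    _ = _ := one_mul _

lemma card_sum_le {ι : Type*} (S : Finset ι) (q : ι → ℝ[X]) :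
    (∑ j ∈ S, q j).support.card ≤ ∑ j ∈ S, (q j).support.card := by
  classical
  induction S using Finset.induction_on with
  | empty => simp
  | insert a S ha ih =>
    rw [Finset.sum_insert ha, Finset.sum_insert ha]
    calc _ ≤ ((q a).support ∪ (∑ j ∈ S, q j).support).card := Finset.card_le_card support_add
      _ ≤ _ := (Finset.card_union_le _ _).trans (by omega)

/-- The intervals of the glued family. -/
lemma intervals {r : ℕ} (a c : Fin r → ℝ) (B : ℝ) (hB : 1 < B)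
    (hdis : ∀ i j, i ≠ j → c i ≤ a j ∨ c j ≤ a i) (hBac : ∀ i, 1 < B * a i ∧ c i < B) (G : ℕ)
    (p q : Fin G × Fin r) (hpq : p ≠ q) :
    B ^ (2 * (p.1 : ℕ)) * c p.2 ≤ B ^ (2 * (q.1 : ℕ)) * a q.2 ∨
      B ^ (2 * (q.1 : ℕ)) * c q.2 ≤ B ^ (2 * (p.1 : ℕ)) * a p.2 := by
  have hB0 : 0 < B := by linarith
  have key : ∀ (g h : ℕ) (i j : Fin r), g < h → B ^ (2 * g) * c i ≤ B ^ (2 * h) * a j := by
    intro g h i j hgh
    obtain ⟨e, rfl⟩ : ∃ e, h = g + e + 1 := ⟨h - g - 1, by omega⟩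
    have h1 := (hBac i).2
    have h2 := (hBac j).1
    have h3 : B ^ (2 * (g + e + 1)) * a j = B ^ (2 * g) * (B ^ (2 * e) * B * (B * a j)) := by ring
    rw [h3]
    apply mul_le_mul_of_nonneg_left _ (by positivity)
    have h4 : (1 : ℝ) ≤ B ^ (2 * e) := one_le_pow₀ hB.le
    calc c i ≤ B := h1.le
      _ = 1 * B * 1 := by ring
      _ ≤ B ^ (2 * e) * B * (B * a j) := by
          apply mul_le_mul _ h2.le (by norm_num) (by positivity)
          exact mul_le_mul_of_nonneg_right h4 hB0.le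
  rcases lt_trichotomy (p.1 : ℕ) (q.1 : ℕ) with h | h | h
  · exact Or.inl (key _ _ _ _ h)
  · have hne : p.2 ≠ q.2 := fun h' => hpq (Prod.ext (Fin.ext h) h')
    rw [h]
    rcases hdis _ _ hne with h' | h'
    · exact Or.inl (mul_le_mul_of_nonneg_left h' (by positivity))
    · exact Or.inr (mul_le_mul_of_nonneg_left h' (by positivity))
  · exact Or.inr (key _ _ _ _ h)

/-- Gluing copies: `G` times more products. -/
lemma Good.glue_k {k t r : ℕ} (hgood : Good k t r) (G : ℕ) : Good (G * k) t (G * r) := by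
  classical
  obtain ⟨F, a, c, h1, h2, h3, h4, h5⟩ := hgood
  obtain ⟨B, hB, hBac⟩ := exists_bound a c h2 h3
  have hB0 : 0 < B := by linarith
  set f := ∑ i, ∏ j, F i j with hf
  let F' : ℕ → Fin G × Fin k → Fin 2 → ℝ[X] := fun E p =>
    ![C (B ^ ((p.1 : ℕ) ^ 2 * E))⁻¹ * X ^ ((p.1 : ℕ) * E) * scal B p.1 (F p.2 0),
      scal B p.1 (F p.2 1)]
  have heval : ∀ E x, (∑ p, ∏ j, F' E p j).eval x =
      ∑ g : Fin G, (x ^ (g : ℕ) / B ^ ((g : ℕ) ^ 2)) ^ E * (scal B g f).eval x := by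
    intro E x
    rw [Fintype.sum_prod_type, eval_finsetSum]
    apply Finset.sum_congr rfl
    intro g _
    have h6 : (scal B g f).eval x = ∑ i, (scal B g (F i 0)).eval x * (scal B g (F i 1)).eval x := by
      unfold scal
      rw [hf, eval_comp, eval_finsetSum]
      apply Finset.sum_congr rfl
      intro i _
      rw [Fin.prod_univ_two, eval_mul, eval_comp, eval_comp]
    rw [h6, eval_finsetSum, Finset.mul_sum]
    apply Finset.sum_congr rfl
    intro i _
    simp only [F', Fin.prod_univ_two, Matrix.cons_val_zero, Matrix.cons_val_one,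
      Matrix.cons_val_fin_one, eval_mul, eval_C, eval_pow, eval_X]
    rw [div_pow, ← pow_mul, ← pow_mul]
    ring
  have hkey : ∀ (g : Fin G) (y : ℝ), 1 < B * y → y < B → f.eval y ≠ 0 →
      ∀ᶠ E : ℕ in atTop, 0 < f.eval y * (∑ p, ∏ j, F' E p j).eval (B ^ (2 * (g : ℕ)) * y) := by
    intro g y hy1 hy2 hy
    have hy0 : 0 < y := by
      by_contra hcon
      push Not at hcon
      have := mul_nonpos_of_nonneg_of_nonpos hB0.le hcon
      linarith
    have hx : 0 < B ^ (2 * (g : ℕ)) * y := by positivity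
    simp only [heval]
    apply Pool.Agent.H746R4.Tau.eventually_sign (fun h : Fin G =>
      (B ^ (2 * (g : ℕ)) * y) ^ (h : ℕ) / B ^ ((h : ℕ) ^ 2))
      (fun h : Fin G => (scal B h f).eval (B ^ (2 * (g : ℕ)) * y)) g
    · intro h
      positivity
    · intro h hne
      apply dom hB hx
      · have h6 : B ^ (2 * (g : ℕ)) * 1 < B ^ (2 * (g : ℕ)) * (B * y) :=
          mul_lt_mul_of_pos_left hy1 (by positivity)
        linarith
      · rw [pow_succ]
        exact mul_lt_mul_of_pos_left hy2 (by positivity)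
      · exact fun h' => hne (Fin.ext h')
    · rw [scal_eval B hB0]
      exact mul_self_pos.mpr hy
  have hne_a : ∀ i, f.eval (a i) ≠ 0 := fun i h => by
    have := h5 i
    rw [h, zero_mul] at this
    exact lt_irrefl _ this
  have hne_c : ∀ i, f.eval (c i) ≠ 0 := fun i h => by
    have := h5 i
    rw [h, mul_zero] at this
    exact lt_irrefl _ this
  have e1 : ∀ᶠ E : ℕ in atTop, ∀ p : Fin G × Fin r,
      0 < f.eval (a p.2) * (∑ p, ∏ j, F' E p j).eval (B ^ (2 * (p.1 : ℕ)) * a p.2) :=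
    eventually_all.mpr fun p => hkey p.1 (a p.2) (hBac _).1 ((h3 _).trans (hBac _).2) (hne_a _)
  have e2 : ∀ᶠ E : ℕ in atTop, ∀ p : Fin G × Fin r,
      0 < f.eval (c p.2) * (∑ p, ∏ j, F' E p j).eval (B ^ (2 * (p.1 : ℕ)) * c p.2) :=
    eventually_all.mpr fun p => hkey p.1 (c p.2) ((hBac _).1.trans
      (mul_lt_mul_of_pos_left (h3 _) hB0)) (hBac _).2 (hne_c _)
  obtain ⟨E, hE1, hE2⟩ := (e1.and e2).exists
  apply good_of (F' E) (fun p : Fin G × Fin r => B ^ (2 * (p.1 : ℕ)) * a p.2)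
    (fun p : Fin G × Fin r => B ^ (2 * (p.1 : ℕ)) * c p.2)
  · simp
  · simp
  · intro p j
    fin_cases j
    · simp only [F', Fin.zero_eta, Matrix.cons_val_zero]
      exact (card_mono_mul _ _ _).trans ((card_comp _ _).trans (h1 _ _))
    · simp only [F', Fin.mk_one, Matrix.cons_val_one, Matrix.cons_val_fin_one]
      exact (card_comp _ _).trans (h1 _ _)
  · intro p
    have := h2 p.2
    positivity
  · intro p
    exact mul_lt_mul_of_pos_left (h3 _) (by positivity)
  · intro p q hpq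
    exact intervals a c B hB h4 hBac G p q hpq
  · intro p
    exact sgn_transfer (h5 p.2) (hE1 p) (hE2 p)

/-- Gluing copies: `G` times more monomials. -/
lemma Good.glue_t {k t r : ℕ} (hgood : Good k t r) (G : ℕ) : Good k (G * t) (G * r) := by
  classical
  obtain ⟨F, a, c, h1, h2, h3, h4, h5⟩ := hgood
  obtain ⟨B, hB, hBac⟩ := exists_bound a c h2 h3
  have hB0 : 0 < B := by linarith
  set f := ∑ i, ∏ j, F i j with hf
  let F' : ℕ → Fin k → Fin 2 → ℝ[X] := fun E i j =>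
    ∑ g : Fin G, C (B ^ ((g : ℕ) ^ 2 * E))⁻¹ * X ^ ((g : ℕ) * E) * scal B g (F i j)
  have heval : ∀ E x, (∑ i, ∏ j, F' E i j).eval x =
      ∑ p : Fin G × Fin G, ((x ^ (p.1 : ℕ) / B ^ ((p.1 : ℕ) ^ 2)) *
        (x ^ (p.2 : ℕ) / B ^ ((p.2 : ℕ) ^ 2))) ^ E *
        ∑ i, (scal B p.1 (F i 0)).eval x * (scal B p.2 (F i 1)).eval x := by
    intro E x
    have h6 : ∀ i j, (F' E i j).eval x = ∑ g : Fin G,
        (x ^ (g : ℕ) / B ^ ((g : ℕ) ^ 2)) ^ E * (scal B g (F i j)).eval x := by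
      intro i j
      simp only [F', eval_finsetSum, eval_mul, eval_C, eval_pow, eval_X]
      apply Finset.sum_congr rfl
      intro g _
      rw [div_pow, ← pow_mul, ← pow_mul]
      ring
    have h7 : ∀ i, (∏ j, F' E i j).eval x = ∑ p : Fin G × Fin G,
        ((x ^ (p.1 : ℕ) / B ^ ((p.1 : ℕ) ^ 2)) ^ E * (scal B p.1 (F i 0)).eval x) *
          ((x ^ (p.2 : ℕ) / B ^ ((p.2 : ℕ) ^ 2)) ^ E * (scal B p.2 (F i 1)).eval x) := by
      intro i
      rw [Fin.prod_univ_two, eval_mul, h6, h6, Finset.sum_mul_sum, ← Finset.univ_product_univ,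
        Finset.sum_product]
    rw [eval_finsetSum, Finset.sum_congr rfl (fun i _ => h7 i), Finset.sum_comm]
    apply Finset.sum_congr rfl
    intro p _
    rw [Finset.mul_sum]
    apply Finset.sum_congr rfl
    intro i _
    rw [mul_pow]
    ring
  have hkey : ∀ (g : Fin G) (y : ℝ), 1 < B * y → y < B → f.eval y ≠ 0 →
      ∀ᶠ E : ℕ in atTop, 0 < f.eval y * (∑ i, ∏ j, F' E i j).eval (B ^ (2 * (g : ℕ)) * y) := by
    intro g y hy1 hy2 hy
    have hy0 : 0 < y := by
      by_contra hcon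
      push Not at hcon
      have := mul_nonpos_of_nonneg_of_nonpos hB0.le hcon
      linarith
    have hx : 0 < B ^ (2 * (g : ℕ)) * y := by positivity
    simp only [heval]
    have hdom : ∀ h : Fin G, h ≠ g →
        (B ^ (2 * (g : ℕ)) * y) ^ (h : ℕ) / B ^ ((h : ℕ) ^ 2) <
          (B ^ (2 * (g : ℕ)) * y) ^ (g : ℕ) / B ^ ((g : ℕ) ^ 2) := by
      intro h hne
      apply dom hB hx
      · have h6 : B ^ (2 * (g : ℕ)) * 1 < B ^ (2 * (g : ℕ)) * (B * y) :=
          mul_lt_mul_of_pos_left hy1 (by positivity)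
        linarith
      · rw [pow_succ]
        exact mul_lt_mul_of_pos_left hy2 (by positivity)
      · exact fun h' => hne (Fin.ext h')
    have hle : ∀ h : Fin G,
        (B ^ (2 * (g : ℕ)) * y) ^ (h : ℕ) / B ^ ((h : ℕ) ^ 2) ≤
          (B ^ (2 * (g : ℕ)) * y) ^ (g : ℕ) / B ^ ((g : ℕ) ^ 2) := by
      intro h
      by_cases hh : h = g
      · rw [hh]
      · exact (hdom h hh).le
    have hpos : ∀ h : Fin G, 0 < (B ^ (2 * (g : ℕ)) * y) ^ (h : ℕ) / B ^ ((h : ℕ) ^ 2) := by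
      intro h
      positivity
    apply Pool.Agent.H746R4.Tau.eventually_sign (fun p : Fin G × Fin G =>
      ((B ^ (2 * (g : ℕ)) * y) ^ (p.1 : ℕ) / B ^ ((p.1 : ℕ) ^ 2)) *
        ((B ^ (2 * (g : ℕ)) * y) ^ (p.2 : ℕ) / B ^ ((p.2 : ℕ) ^ 2)))
      (fun p : Fin G × Fin G => ∑ i, (scal B p.1 (F i 0)).eval (B ^ (2 * (g : ℕ)) * y) *
        (scal B p.2 (F i 1)).eval (B ^ (2 * (g : ℕ)) * y)) (g, g)
    · intro p
      exact mul_pos (hpos _) (hpos _)
    · rintro ⟨h, h'⟩ hne
      by_cases hh : h = g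
      · have hh' : h' ≠ g := fun h6 => hne (by rw [hh, h6])
        exact mul_lt_mul' (hle h) (hdom h' hh') (hpos _).le (hpos _)
      · exact mul_lt_mul (hdom h hh) (hle h') (hpos _) (hpos _).le
    · simp only [scal_eval B hB0]
      have h6 : ∑ i, (F i 0).eval y * (F i 1).eval y = f.eval y := by
        rw [hf, eval_finsetSum]
        apply Finset.sum_congr rfl
        intro i _
        rw [Fin.prod_univ_two, eval_mul]
      rw [h6]
      exact mul_self_pos.mpr hy
  have hne_a : ∀ i, f.eval (a i) ≠ 0 := fun i h => by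
    have := h5 i
    rw [h, zero_mul] at this
    exact lt_irrefl _ this
  have hne_c : ∀ i, f.eval (c i) ≠ 0 := fun i h => by
    have := h5 i
    rw [h, mul_zero] at this
    exact lt_irrefl _ this
  have e1 : ∀ᶠ E : ℕ in atTop, ∀ p : Fin G × Fin r,
      0 < f.eval (a p.2) * (∑ i, ∏ j, F' E i j).eval (B ^ (2 * (p.1 : ℕ)) * a p.2) :=
    eventually_all.mpr fun p => hkey p.1 (a p.2) (hBac _).1 ((h3 _).trans (hBac _).2) (hne_a _)
  have e2 : ∀ᶠ E : ℕ in atTop, ∀ p : Fin G × Fin r,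
      0 < f.eval (c p.2) * (∑ i, ∏ j, F' E i j).eval (B ^ (2 * (p.1 : ℕ)) * c p.2) :=
    eventually_all.mpr fun p => hkey p.1 (c p.2) ((hBac _).1.trans
      (mul_lt_mul_of_pos_left (h3 _) hB0)) (hBac _).2 (hne_c _)
  obtain ⟨E, hE1, hE2⟩ := (e1.and e2).exists
  apply good_of (F' E) (fun p : Fin G × Fin r => B ^ (2 * (p.1 : ℕ)) * a p.2)
    (fun p : Fin G × Fin r => B ^ (2 * (p.1 : ℕ)) * c p.2)
  · simp
  · simp
  · intro i j
    refine (card_sum_le _ _).trans ?_
    have h8 : ∀ g ∈ (univ : Finset (Fin G)), (C (B ^ ((g : ℕ) ^ 2 * E))⁻¹ * X ^ ((g : ℕ) * E) *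
        scal B g (F i j)).support.card ≤ t := fun g _ =>
      (card_mono_mul _ _ _).trans ((card_comp _ _).trans (h1 _ _))
    refine (Finset.sum_le_sum h8).trans ?_
    simp
  · intro p
    have := h2 p.2
    positivity
  · intro p
    exact mul_lt_mul_of_pos_left (h3 _) (by positivity)
  · intro p q hpq
    exact intervals a c B hB h4 hBac G p q hpq
  · intro p
    exact sgn_transfer (h5 p.2) (hE1 p) (hE2 p)

end Pool.Agent.TH866.TauGlue
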