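import Pool.Agent.TH866.TauGlue

set_option autoImplicit false

namespace Pool.Agent.TH866.TauGlue

open Polynomial Finset Filter Topology

lemma shrink (f : ℝ[X]) {u v : ℝ} (huv : u < v) (h : f.eval u * f.eval v < 0) :
    ∃ u', u < u' ∧ u' < v ∧ f.eval u' * f.eval v < 0 := by
  have h1 : Tendsto (fun x => f.eval x * f.eval v) (𝓝[>] u) (𝓝 (f.eval u * f.eval v)) :=
    ((f.continuous.mul continuous_const).tendsto u).mono_left nhdsWithin_le_nhds
  have h2 := h1.eventually (gt_mem_nhds h)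
  have h3 : ∀ᶠ x in 𝓝[>] u, x ∈ Set.Ioo u v := Ioo_mem_nhdsGT huv
  obtain ⟨x, h4, h5⟩ := (h2.and h3).exists
  exact ⟨x, h5.1, h5.2, h4⟩

lemma good_of_nonneg {κ : Type} [Fintype κ] (K t r : ℕ) (F : Fin K → Fin 2 → ℝ[X])
    (hF : ∀ i j, (F i j).support.card ≤ t) (u v : κ → ℝ) (hu : ∀ i, 0 ≤ u i)
    (huv : ∀ i, u i < v i) (hdis : ∀ i j, i ≠ j → v i ≤ u j ∨ v j ≤ u i)
    (hs : ∀ i, (∑ i, ∏ j, F i j).eval (u i) * (∑ i, ∏ j, F i j).eval (v i) < 0)
    (hr : r ≤ Fintype.card κ) : Good K t r := by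
  choose u' h1 h2 h3 using fun i => shrink (∑ i, ∏ j, F i j) (huv i) (hs i)
  apply good_of F u' v K t r (by simp) hr hF (fun i => (hu i).trans_lt (h1 i)) h2 _ h3
  intro i j hij
  rcases hdis i j hij with h | h
  · exact Or.inl (h.trans (h1 j).le)
  · exact Or.inr (h.trans (h1 i).le)

lemma card_C_le (r : ℝ) : (C r : ℝ[X]).support.card ≤ 1 :=
  (Finset.card_le_card (support_C_subset r)).trans (by simp)

lemma base (K t r : ℕ) (F : Fin K → Fin 2 → ℝ[X]) (ht : 1 ≤ t)
    (hF : ∀ i j, (F i j).support.card ≤ t) (hne : ∑ i, ∏ j, F i j ≠ 0)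
    (hr : 2 * r + 1 ≤ (∑ i, ∏ j, F i j).roots.toFinset.card) : Good (K + 1) t r := by
  classical
  set f := ∑ i, ∏ j, F i j with hf
  obtain ⟨κ, _, _, u, v, s, hcard, huv, hdis, hs, hs0⟩ :=
    Pool.Agent.TH673.Tau2.exists_pert f hne
  let F' : Fin (K + 1) → Fin 2 → ℝ[X] := Fin.cons ![C s, 1] F
  have hF' : ∀ i j, (F' i j).support.card ≤ t := by
    intro i j
    refine Fin.cases ?_ (fun i => ?_) i
    · simp only [F', Fin.cons_zero]
      fin_cases j
      · exact (card_C_le _).trans ht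
      · simp only [Fin.mk_one, Matrix.cons_val_one, Matrix.cons_val_fin_one]
        rw [← C_1]
        exact (card_C_le _).trans ht
    · simp only [F', Fin.cons_succ]
      exact hF i j
  have hsum : ∑ i, ∏ j, F' i j = f + C s := by
    rw [Fin.sum_univ_succ]
    simp only [F', Fin.cons_zero, Fin.cons_succ]
    rw [Fin.prod_univ_two]
    simp only [Matrix.cons_val_zero, Matrix.cons_val_one, Matrix.cons_val_fin_one, mul_one]
    rw [← hf, add_comm]
  set P := univ.filter (fun i => 0 ≤ u i) with hP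
  set N := univ.filter (fun i => v i ≤ 0) with hN
  set O := univ.filter (fun i => u i < 0 ∧ 0 < v i) with hO
  have hO1 : O.card ≤ 1 := by
    rw [Finset.card_le_one]
    intro i hi j hj
    rw [hO, Finset.mem_filter] at hi hj
    by_contra hij
    rcases hdis i j hij with h | h <;> linarith [hi.2.1, hi.2.2, hj.2.1, hj.2.2]
  have hcov : (univ : Finset κ) ⊆ P ∪ N ∪ O := by
    intro i _
    rw [Finset.mem_union, Finset.mem_union, hP, hN, hO, Finset.mem_filter, Finset.mem_filter,
      Finset.mem_filter]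
    by_cases h1 : 0 ≤ u i
    · exact Or.inl (Or.inl ⟨mem_univ _, h1⟩)
    · by_cases h2 : v i ≤ 0
      · exact Or.inl (Or.inr ⟨mem_univ _, h2⟩)
      · exact Or.inr ⟨mem_univ _, not_le.mp h1, not_le.mp h2⟩
  have hcount : Fintype.card κ ≤ P.card + N.card + O.card := by
    rw [← Finset.card_univ]
    refine (Finset.card_le_card hcov).trans ((Finset.card_union_le _ _).trans ?_)
    have := Finset.card_union_le P N
    omega
  have hPN : r ≤ P.card ∨ r ≤ N.card := by omega
  rcases hPN with h | h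
  · apply good_of_nonneg (κ := {i // 0 ≤ u i}) (K + 1) t r F' hF' (fun i => u i.1) (fun i => v i.1)
      (fun i => i.2) (fun i => huv _) (fun i j hij => hdis _ _ (fun h' => hij (Subtype.ext h')))
    · intro i
      rw [hsum]
      exact hs _
    · rw [Fintype.card_subtype]
      exact h
  · have hev : ∀ x, (∑ i, ∏ j, (F' i j).comp (C (-1) * X)).eval x = (f + C s).eval (-x) := by
      intro x
      rw [← hsum]
      simp [eval_finsetSum, eval_prod, eval_comp]
    apply good_of_nonneg (κ := {i // v i ≤ 0}) (K + 1) t r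
      (fun i j => (F' i j).comp (C (-1) * X)) (fun i j => (card_comp _ _).trans (hF' i j))
      (fun i => -v i.1) (fun i => -u i.1) (fun i => by linarith [i.2])
      (fun i => by linarith [huv i.1])
    · intro i j hij
      rcases hdis _ _ (fun h' => hij (Subtype.ext h')) with h' | h'
      · exact Or.inr (by linarith)
      · exact Or.inl (by linarith)
    · intro i
      rw [hev, hev, neg_neg, neg_neg, mul_comm]
      exact hs _
    · rw [Fintype.card_subtype]
      exact h

lemma base_small : Good 1 2 1 := by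
  refine ⟨fun _ => ![X - 1, 1], fun _ => 1 / 2, fun _ => 2, ?_, ?_, ?_, ?_, ?_⟩
  · intro i j
    fin_cases j
    · simp only [Fin.zero_eta, Matrix.cons_val_zero]
      have h1 : (X - 1 : ℝ[X]) = X - C 1 := by simp
      have h2 : (X - C (1 : ℝ)).support ⊆ {0, 1} := by
        intro n hn
        rw [mem_support_iff, coeff_sub, coeff_X, coeff_C] at hn
        by_contra hcon
        simp only [Finset.mem_insert, Finset.mem_singleton, not_or] at hcon
        apply hn
        rw [if_neg (fun h => hcon.2 h.symm), if_neg hcon.1]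
        ring
      rw [h1]
      exact (Finset.card_le_card h2).trans (by simp)
    · simp only [Fin.mk_one, Matrix.cons_val_one, Matrix.cons_val_fin_one]
      rw [← C_1]
      exact (card_C_le _).trans (by norm_num)
  · intro i
    norm_num
  · intro i
    norm_num
  · intro i j hij
    exact absurd (Subsingleton.elim i j) hij
  · intro i
    simp only [Finset.univ_unique, Finset.sum_const, Finset.card_singleton, one_smul,
      Fin.prod_univ_two, Matrix.cons_val_zero, Matrix.cons_val_one, Matrix.cons_val_fin_one,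
      mul_one, eval_sub, eval_X, eval_one]
    norm_num

/-- The starting family in one parameter. -/
lemma base_family (s : ℕ) (hs : 1 ≤ s) : Good (1536 * s ^ 7 + 1) (8 * s ^ 4) (1023 * s ^ 13) := by
  obtain ⟨F, hF, hroots⟩ := Pool.Agent.H746R4.Tau.family₂ s (2 * s ^ 2) hs (by
    have : 1 ≤ s ^ 2 := Nat.one_le_pow _ _ hs
    omega)
  have hne : (∑ i, ∏ j, F i j) ≠ 0 := by
    intro h0
    rw [h0, roots_zero, Multiset.toFinset_zero, Finset.card_empty] at hroots
    have : 0 < 64 * s ^ 3 * (2 * s ^ 2) ^ 5 := by positivity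
    omega
  have h1 : 192 * s * (2 * s ^ 2) ^ 3 + 1 = 1536 * s ^ 7 + 1 := by ring
  rw [← h1]
  apply base _ _ _ F
  · have : 1 ≤ s ^ 4 := Nat.one_le_pow _ _ hs
    omega
  · intro i j
    fin_cases j
    · refine (hF i).1.trans (le_of_eq ?_)
      ring
    · refine (hF i).2.trans (le_of_eq ?_)
      ring
  · exact hne
  · refine le_trans ?_ hroots
    have h2 : 64 * s ^ 3 * (2 * s ^ 2) ^ 5 = 2048 * s ^ 13 := by ring
    rw [h2]
    have : 1 ≤ s ^ 13 := Nat.one_le_pow _ _ hs
    omega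

/-- **All ranges, two factors.** -/
theorem range_two (k t s : ℕ) (ht : 2 ≤ t) (h7 : s ^ 7 ≤ k) (h4 : s ^ 4 ≤ t) :
    ∃ r, Good k t r ∧ k * t * s ^ 2 ≤ 1300 * r := by
  by_cases hs : s ≤ 2
  · refine ⟨t / 2 * (k * 1), ?_, ?_⟩
    · exact ((base_small.glue_k k).glue_t (t / 2)).mono (by simp)
        (Nat.div_mul_le_self t 2) le_rfl
    · have h1 : t ≤ 3 * (t / 2) := by omega
      have h2 : s ^ 2 ≤ 4 := by
        calc s ^ 2 ≤ 2 ^ 2 := Nat.pow_le_pow_left hs 2
          _ = 4 := by norm_num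
      calc k * t * s ^ 2 ≤ k * (3 * (t / 2)) * 4 := by gcongr
        _ = 12 * (t / 2 * (k * 1)) := by ring
        _ ≤ 1300 * (t / 2 * (k * 1)) := by gcongr; norm_num
  · push Not at hs
    set s' := s / 3 with hs'
    have hs1 : 1 ≤ s' := by omega
    have hs3 : 3 * s' ≤ s := by omega
    have hs5 : s ≤ 5 * s' := by omega
    have hk0 : 1536 * s' ^ 7 + 1 ≤ k := by
      have h1 : (3 * s') ^ 7 ≤ s ^ 7 := Nat.pow_le_pow_left hs3 7
      have h2 : (3 * s') ^ 7 = 2187 * s' ^ 7 := by ring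
      have h3 : 1 ≤ s' ^ 7 := Nat.one_le_pow _ _ hs1
      omega
    have ht0 : 8 * s' ^ 4 ≤ t := by
      have h1 : (3 * s') ^ 4 ≤ s ^ 4 := Nat.pow_le_pow_left hs3 4
      have h2 : (3 * s') ^ 4 = 81 * s' ^ 4 := by ring
      omega
    set K0 := 1536 * s' ^ 7 + 1 with hK0
    set T0 := 8 * s' ^ 4 with hT0
    have hT0pos : 0 < T0 := by positivity
    have hK0pos : 0 < K0 := by positivity
    have hg := ((base_family s' hs1).glue_k (k / K0)).glue_t (t / T0)
    refine ⟨t / T0 * (k / K0 * (1023 * s' ^ 13)), hg.mono (Nat.div_mul_le_self _ _)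
      (Nat.div_mul_le_self _ _) le_rfl, ?_⟩
    have hkk : k ≤ 2 * (K0 * (k / K0)) := by
      have h1 : 1 ≤ k / K0 := (Nat.one_le_div_iff hK0pos).mpr hk0
      have h2 := Nat.div_add_mod k K0
      have h3 := Nat.mod_lt k hK0pos
      have h4 : K0 * 1 ≤ K0 * (k / K0) := Nat.mul_le_mul_left _ h1
      omega
    have htt : t ≤ 2 * (T0 * (t / T0)) := by
      have h1 : 1 ≤ t / T0 := (Nat.one_le_div_iff hT0pos).mpr ht0
      have h2 := Nat.div_add_mod t T0
      have h3 := Nat.mod_lt t hT0pos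
      have h4 : T0 * 1 ≤ T0 * (t / T0) := Nat.mul_le_mul_left _ h1
      omega
    have hK0' : K0 ≤ 1537 * s' ^ 7 := by
      have : 1 ≤ s' ^ 7 := Nat.one_le_pow _ _ hs1
      omega
    have hss : s ^ 2 ≤ 25 * s' ^ 2 := by
      calc s ^ 2 ≤ (5 * s') ^ 2 := Nat.pow_le_pow_left hs5 2
        _ = 25 * s' ^ 2 := by ring
    calc k * t * s ^ 2 ≤ (2 * (K0 * (k / K0))) * (2 * (T0 * (t / T0))) * (25 * s' ^ 2) := by gcongr
      _ ≤ (2 * (1537 * s' ^ 7 * (k / K0))) * (2 * (T0 * (t / T0))) * (25 * s' ^ 2) := by gcongr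
      _ = 1229600 * (t / T0 * (k / K0 * s' ^ 13)) := by
          rw [hT0]
          ring
      _ ≤ 1329900 * (t / T0 * (k / K0 * s' ^ 13)) := by gcongr; norm_num
      _ = 1300 * (t / T0 * (k / K0 * (1023 * s' ^ 13))) := by ring

end Pool.Agent.TH866.TauGlue
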