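import Pool.Agent.TH866.TauRange

set_option autoImplicit false

namespace Pool.Agent.TH866.TauGlue

open Polynomial Finset Filter Topology

/-- A nonzero sum of `k` products of `m` `t`-sparse polynomials with at least `r` real roots. -/
def HasRep (k m t r : ℕ) : Prop :=
  ∃ F : Fin k → Fin m → ℝ[X], (∀ i j, (F i j).support.card ≤ t) ∧ (∑ i, ∏ j, F i j) ≠ 0 ∧
    r ≤ (∑ i, ∏ j, F i j).roots.toFinset.card

/-- Padding. -/
lemma pad {κ ι : Type} [Fintype κ] [Fintype ι] (F : κ → ι → ℝ[X]) (k m t : ℕ)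
    (hk : Fintype.card κ ≤ k) (hm : Fintype.card ι ≤ m) (hm1 : 1 ≤ m) (ht : 1 ≤ t)
    (hF : ∀ i j, (F i j).support.card ≤ t) :
    ∃ F' : Fin k → Fin m → ℝ[X], (∀ i j, (F' i j).support.card ≤ t) ∧
      ∑ i, ∏ j, F' i j = ∑ i, ∏ j, F i j := by
  classical
  obtain ⟨e⟩ : Nonempty (κ ↪ Fin k) := Function.Embedding.nonempty_of_card_le (by simpa using hk)
  obtain ⟨e'⟩ : Nonempty (ι ↪ Fin m) := Function.Embedding.nonempty_of_card_le (by simpa using hm)
  refine ⟨Function.extend e (fun x => Function.extend e' (F x) 1) 0, ?_, ?_⟩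
  · intro i j
    by_cases h : ∃ x, e x = i
    · obtain ⟨x, rfl⟩ := h
      rw [e.injective.extend_apply]
      by_cases h' : ∃ y, e' y = j
      · obtain ⟨y, rfl⟩ := h'
        rw [e'.injective.extend_apply]
        exact hF x y
      · rw [Function.extend_apply' _ _ _ h', Pi.one_apply, ← C_1]
        exact (card_C_le _).trans ht
    · rw [Function.extend_apply' _ _ _ h]
      simp
  · symm
    apply Fintype.sum_of_injective e e.injective
    · intro i hi
      rw [Function.extend_apply' _ _ _ (by simpa using hi)]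
      simp only [Pi.zero_apply, Finset.prod_const, Finset.card_univ, Fintype.card_fin]
      exact zero_pow (by omega)
    · intro i
      rw [e.injective.extend_apply]
      apply Fintype.prod_of_injective e' e'.injective
      · intro j hj
        rw [Function.extend_apply' _ _ _ (by simpa using hj), Pi.one_apply]
      · intro j
        rw [e'.injective.extend_apply]

/-- Absorbing scalars. -/
lemma absorb {κ ι : Type} [Fintype κ] [Fintype ι] (lam : κ → ℝ) (F : κ → ι → ℝ[X]) (t : ℕ) (y : ι)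
    (hF : ∀ i j, (F i j).support.card ≤ t) :
    ∃ F' : κ → ι → ℝ[X], (∀ i j, (F' i j).support.card ≤ t) ∧
      ∑ i, ∏ j, F' i j = ∑ i, C (lam i) * ∏ j, F i j := by
  classical
  refine ⟨fun i j => (if j = y then C (lam i) else 1) * F i j, ?_, ?_⟩
  · intro i j
    show ((if j = y then C (lam i) else 1) * F i j).support.card ≤ t
    split_ifs
    · have h1 := card_mono_mul (lam i) 0 (F i j)
      rw [pow_zero, mul_one] at h1
      exact h1.trans (hF i j)
    · rw [one_mul]
      exact hF i j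
  · apply Finset.sum_congr rfl
    intro i _
    rw [Finset.prod_mul_distrib, Finset.prod_ite_eq' Finset.univ y, if_pos (Finset.mem_univ _)]

/-- From approximation to representation. -/
lemma rep_of_limit {κ ι : Type} [Fintype κ] [Fintype ι] {k' t' r : ℕ} (hr : 1 ≤ r)
    (F₀ : Fin k' → Fin 2 → ℝ[X]) (a c : Fin r → ℝ) (hac : ∀ i, a i < c i)
    (hdis : ∀ i j, i ≠ j → c i ≤ a j ∨ c j ≤ a i)
    (hs : ∀ i, (∑ i, ∏ j, F₀ i j).eval (a i) * (∑ i, ∏ j, F₀ i j).eval (c i) < 0)
    (lam : ℝ → κ → ℝ) (F : ℝ → κ → ι → ℝ[X]) (y : ι) (k m : ℕ)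
    (hk : Fintype.card κ ≤ k) (hm : Fintype.card ι ≤ m) (ht : 1 ≤ t')
    (hF : ∀ η i j, (F η i j).support.card ≤ t')
    (hlim : ∀ x, Tendsto (fun η => (∑ i, C (lam η i) * ∏ j, F η i j).eval x) (𝓝[>] 0)
      (𝓝 ((∑ i, ∏ j, F₀ i j).eval x))) : HasRep k m t' r := by
  classical
  set f := ∑ i, ∏ j, F₀ i j with hf
  have hm1 : 1 ≤ m := by
    have : 0 < Fintype.card ι := Fintype.card_pos_iff.mpr ⟨y⟩
    omega
  have hkey : ∀ x, f.eval x ≠ 0 →
      ∀ᶠ η : ℝ in 𝓝[>] 0, 0 < f.eval x * (∑ i, C (lam η i) * ∏ j, F η i j).eval x := by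
    intro x hx
    have h1 := (hlim x).const_mul (f.eval x)
    exact h1.eventually (lt_mem_nhds (mul_self_pos.mpr hx))
  have hne_a : ∀ i, f.eval (a i) ≠ 0 := fun i h => by
    have := hs i
    rw [h, zero_mul] at this
    exact lt_irrefl _ this
  have hne_c : ∀ i, f.eval (c i) ≠ 0 := fun i h => by
    have := hs i
    rw [h, mul_zero] at this
    exact lt_irrefl _ this
  have e1 : ∀ᶠ η : ℝ in 𝓝[>] 0, ∀ i,
      0 < f.eval (a i) * (∑ i, C (lam η i) * ∏ j, F η i j).eval (a i) :=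
    eventually_all.mpr fun i => hkey _ (hne_a i)
  have e2 : ∀ᶠ η : ℝ in 𝓝[>] 0, ∀ i,
      0 < f.eval (c i) * (∑ i, C (lam η i) * ∏ j, F η i j).eval (c i) :=
    eventually_all.mpr fun i => hkey _ (hne_c i)
  obtain ⟨η, h1, h2⟩ := (e1.and e2).exists
  obtain ⟨F₁, hF₁, hsum₁⟩ := absorb (lam η) (F η) t' y (hF η)
  obtain ⟨F₂, hF₂, hsum₂⟩ := pad F₁ k m t' hk hm hm1 ht hF₁
  rw [hsum₁] at hsum₂
  have hsc : ∀ i, (∑ i, ∏ j, F₂ i j).eval (a i) * (∑ i, ∏ j, F₂ i j).eval (c i) < 0 := by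
    intro i
    rw [hsum₂]
    exact sgn_transfer (hs i) (h1 i) (h2 i)
  refine ⟨F₂, hF₂, ?_, ?_⟩
  · intro h0
    have := hsc ⟨0, hr⟩
    rw [h0, eval_zero, zero_mul] at this
    exact lt_irrefl _ this
  · have := Pool.Agent.H746R4.Tau.card_le_roots _ a c hac hdis hsc
    simpa using this

/-- Splitting a sparse polynomial. -/
lemma pieces (n t : ℕ) (p : ℝ[X]) (hp : p.support.card ≤ n * t) :
    ∃ q : Fin n → ℝ[X], (∀ l, (q l).support.card ≤ t) ∧ p = ∑ l, q l := by
  obtain ⟨c, a, h⟩ := Pool.Agent.TH866.TauBin.exists_monomials (n * t) p hp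
  refine ⟨fun l => ∑ l' : Fin t, C (c (finProdFinEquiv (l, l'))) * X ^ a (finProdFinEquiv (l, l')),
    ?_, ?_⟩
  · intro l
    refine (card_sum_le _ _).trans ?_
    have h8 : ∀ l' ∈ (univ : Finset (Fin t)), (C (c (finProdFinEquiv (l, l'))) *
        X ^ a (finProdFinEquiv (l, l')) : ℝ[X]).support.card ≤ 1 := fun l' _ =>
      card_support_C_mul_X_pow_le_one
    refine (Finset.sum_le_sum h8).trans ?_
    simp
  · rw [h, ← Fintype.sum_prod_type']
    symm
    apply Fintype.sum_equiv finProdFinEquiv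
    intro q
    rfl

lemma card_one_add (c : ℝ) (p : ℝ[X]) (t : ℕ) (hp : p.support.card ≤ t) :
    (1 + C c * p).support.card ≤ t + 1 := by
  have h1 : (1 : ℝ[X]).support.card ≤ 1 := by
    rw [← C_1]
    exact card_C_le _
  have h2 : (C c * p).support.card ≤ t := by
    have h1 := card_mono_mul c 0 p
    rw [pow_zero, mul_one] at h1
    exact h1.trans hp
  calc _ ≤ ((1 : ℝ[X]).support ∪ (C c * p).support).card := Finset.card_le_card support_add
    _ ≤ _ := (Finset.card_union_le _ _).trans (by omega)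

/-- Many products with many short factors. -/
lemma rep_A (K n t r : ℕ) (hn : 1 ≤ n) (hr : 1 ≤ r) (hgood : Good K (n * t) r) :
    HasRep (K * 4) (2 * n) (t + 1) r := by
  classical
  obtain ⟨F₀, a, c, h1, _, h3, h4, h5⟩ := hgood
  choose q hq1 hq2 using fun i j => pieces n t (F₀ i j) (h1 i j)
  let lam : ℝ → Fin K × Finset (Fin 2) → ℝ := fun η p => (-1) ^ (p.2ᶜ).card / η ^ 2
  let F : ℝ → Fin K × Finset (Fin 2) → Fin 2 × Fin n → ℝ[X] := fun η p w =>
    1 + C (if w.1 ∈ p.2 then η else 0) * q p.1 w.1 w.2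
  refine rep_of_limit hr F₀ a c h3 h4 h5 lam F (0, ⟨0, hn⟩) (K * 4) (2 * n) ?_ ?_ (by omega) ?_ ?_
  · rw [Fintype.card_prod, Fintype.card_finset, Fintype.card_fin, Fintype.card_fin]
    norm_num
  · rw [Fintype.card_prod, Fintype.card_fin, Fintype.card_fin]
  · intro η p w
    exact card_one_add _ _ _ (hq1 _ _ _)
  · intro x
    have heval : ∀ η, (∑ p, C (lam η p) * ∏ w, F η p w).eval x =
        ∑ i, ∏ j, ((∏ l, (1 + η * (q i j l).eval x) - 1) / η) := by
      intro η
      rw [Fintype.sum_prod_type, eval_finsetSum]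
      apply Finset.sum_congr rfl
      intro i _
      rw [Pool.Agent.TH866.TauBin.prod_expand, eval_finsetSum]
      apply Finset.sum_congr rfl
      intro S _
      rw [eval_mul, eval_C, eval_prod, Fintype.prod_prod_type]
      congr 1
      apply Finset.prod_congr rfl
      intro j _
      split_ifs with hj
      · apply Finset.prod_congr rfl
        intro l _
        simp only [F, if_pos hj, eval_add, eval_one, eval_mul, eval_C]
      · apply Finset.prod_eq_one
        intro l _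
        simp only [F, if_neg hj, eval_add, eval_one, eval_mul, eval_C, zero_mul, add_zero]
    have hf : (∑ i, ∏ j, F₀ i j).eval x = ∑ i, ∏ j, ∑ l, (q i j l).eval x := by
      rw [eval_finsetSum]
      apply Finset.sum_congr rfl
      intro i _
      rw [eval_prod]
      apply Finset.prod_congr rfl
      intro j _
      conv_lhs => rw [hq2 i j]
      rw [eval_finsetSum]
    rw [hf]
    simp only [heval]
    apply tendsto_finsetSum
    intro i _
    apply tendsto_finsetProd
    intro j _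
    exact Pool.Agent.TH866.TauBin.tendsto_prod n (fun l => (q i j l).eval x)

/-- Second-order expansion. -/
lemma tendsto_second (n : ℕ) (p q : Fin n → ℝ) :
    Tendsto (fun ε : ℝ => (∏ i, ((1 + ε * p i) * (1 + ε * q i)) - ∏ i, (1 + ε * (p i + q i))) /
      ε ^ 2) (𝓝[>] 0) (𝓝 (∑ i, p i * q i)) := by
  induction n with
  | zero => simp
  | succ n ih =>
    have h1 := ih (fun i => p i.succ) (fun i => q i.succ)
    have hb : ∀ w : ℝ, Tendsto (fun ε : ℝ => 1 + ε * w) (𝓝[>] 0) (𝓝 1) := by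
      intro w
      have h2 : Tendsto (fun ε : ℝ => 1 + ε * w) (𝓝[>] 0) (𝓝 (1 + 0 * w)) :=
        ((continuous_const.add (continuous_id.mul continuous_const)).tendsto 0).mono_left
          nhdsWithin_le_nhds
      rwa [zero_mul, add_zero] at h2
    have h2 : Tendsto (fun ε : ℝ => ∏ i : Fin n, ((1 + ε * p i.succ) * (1 + ε * q i.succ)))
        (𝓝[>] 0) (𝓝 (∏ _i : Fin n, (1 * 1 : ℝ))) :=
      tendsto_finsetProd _ fun i _ => (hb _).mul (hb _)
    have h3 := ((hb (p 0 + q 0)).mul h1).add ((h2.const_mul (p 0 * q 0)))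
    have h4 : 1 * ∑ i : Fin n, p i.succ * q i.succ + p 0 * q 0 * ∏ _i : Fin n, (1 * 1 : ℝ) =
        ∑ i, p i * q i := by
      rw [Fin.sum_univ_succ]
      simp only [mul_one, Finset.prod_const_one, one_mul]
      ring
    rw [h4] at h3
    refine h3.congr' ?_
    filter_upwards [self_mem_nhdsWithin] with ε hε
    have hε' : ε ≠ 0 := ne_of_gt hε
    rw [Fin.prod_univ_succ, Fin.prod_univ_succ]
    field_simp
    ring

/-- Few products with many factors. -/
lemma rep_B (K n t r : ℕ) (hn : 1 ≤ n) (hr : 1 ≤ r) (hgood : Good (K * n) t r) :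
    HasRep (K * 2) (n * 2) (2 * t + 1) r := by
  classical
  obtain ⟨F₀, a, c, h1, _, h3, h4, h5⟩ := hgood
  let lam : ℝ → Fin K × Bool → ℝ := fun ε p => (if p.2 then 1 else -1) / ε ^ 2
  let F : ℝ → Fin K × Bool → Fin n × Bool → ℝ[X] := fun ε p w =>
    1 + C ε * (if p.2 then (if w.2 then F₀ (finProdFinEquiv (p.1, w.1)) 0
      else F₀ (finProdFinEquiv (p.1, w.1)) 1)
      else (if w.2 then F₀ (finProdFinEquiv (p.1, w.1)) 0 + F₀ (finProdFinEquiv (p.1, w.1)) 1
        else 0))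
  refine rep_of_limit hr F₀ a c h3 h4 h5 lam F (⟨0, hn⟩, true) (K * 2) (n * 2) ?_ ?_ (by omega)
    ?_ ?_
  · rw [Fintype.card_prod, Fintype.card_fin, Fintype.card_bool]
  · rw [Fintype.card_prod, Fintype.card_fin, Fintype.card_bool]
  · intro ε p w
    apply card_one_add
    have hA := h1 (finProdFinEquiv (p.1, w.1)) 0
    have hB := h1 (finProdFinEquiv (p.1, w.1)) 1
    split_ifs
    · omega
    · omega
    · refine (Finset.card_le_card support_add).trans ((Finset.card_union_le _ _).trans ?_)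
      omega
    · simp
  · intro x
    have heval : ∀ ε, (∑ p, C (lam ε p) * ∏ w, F ε p w).eval x =
        ∑ g : Fin K, (∏ i : Fin n, ((1 + ε * (F₀ (finProdFinEquiv (g, i)) 0).eval x) *
          (1 + ε * (F₀ (finProdFinEquiv (g, i)) 1).eval x)) -
          ∏ i : Fin n, (1 + ε * ((F₀ (finProdFinEquiv (g, i)) 0).eval x +
            (F₀ (finProdFinEquiv (g, i)) 1).eval x))) / ε ^ 2 := by
      intro ε
      rw [Fintype.sum_prod_type, eval_finsetSum]
      apply Finset.sum_congr rfl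
      intro g _
      simp only [Fintype.sum_bool, Fintype.prod_prod_type, Fintype.prod_bool, lam, F, if_true,
        Bool.false_eq_true, if_false, mul_zero, add_zero, mul_one, eval_add, eval_mul, eval_C,
        eval_prod, eval_one]
      ring
    have hf : (∑ i, ∏ j, F₀ i j).eval x = ∑ g : Fin K, ∑ i : Fin n,
        (F₀ (finProdFinEquiv (g, i)) 0).eval x * (F₀ (finProdFinEquiv (g, i)) 1).eval x := by
      rw [eval_finsetSum, ← Fintype.sum_prod_type']
      symm
      apply Fintype.sum_equiv finProdFinEquiv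
      intro p
      rw [Fin.prod_univ_two, eval_mul]
    rw [hf]
    simp only [heval]
    apply tendsto_finsetSum
    intro g _
    exact tendsto_second n _ _

/-- One product of linear polynomials. -/
lemma rep_linear (k m t : ℕ) (hk : 1 ≤ k) (hm : 1 ≤ m) (ht : 2 ≤ t) : HasRep k m t m := by
  classical
  obtain ⟨F, hF, hsum⟩ := pad (κ := Unit) (ι := Fin m)
    (fun _ j => (X - C ((j : ℕ) : ℝ) : ℝ[X])) k m t (by simpa using hk) (by simp) hm (by omega) (by
      intro i j
      have h2 : (X - C ((j : ℕ) : ℝ)).support ⊆ {0, 1} := by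
        intro n hn
        rw [mem_support_iff, coeff_sub, coeff_X, coeff_C] at hn
        by_contra hcon
        simp only [Finset.mem_insert, Finset.mem_singleton, not_or] at hcon
        apply hn
        rw [if_neg (fun h => hcon.2 h.symm), if_neg hcon.1]
        ring
      exact ((Finset.card_le_card h2).trans (by simp)).trans ht)
  have hne : (∏ j : Fin m, (X - C ((j : ℕ) : ℝ) : ℝ[X])) ≠ 0 :=
    Finset.prod_ne_zero_iff.mpr fun j _ => X_sub_C_ne_zero _
  have hsum' : ∑ i, ∏ j, F i j = ∏ j : Fin m, (X - C ((j : ℕ) : ℝ) : ℝ[X]) := by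
    rw [hsum]
    simp
  refine ⟨F, hF, ?_, ?_⟩
  · rw [hsum']
    exact hne
  · rw [hsum']
    have hinj : Function.Injective (fun j : Fin m => ((j : ℕ) : ℝ)) := by
      intro i j hij
      have hij' : ((i : ℕ) : ℝ) = ((j : ℕ) : ℝ) := hij
      exact Fin.ext (by exact_mod_cast hij')
    calc m = (univ.image (fun j : Fin m => ((j : ℕ) : ℝ))).card := by
          rw [Finset.card_image_of_injective _ hinj]
          simp
      _ ≤ _ := by
          apply Finset.card_le_card
          intro x hx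
          obtain ⟨j, _, rfl⟩ := Finset.mem_image.mp hx
          rw [Multiset.mem_toFinset, mem_roots hne, IsRoot.def, eval_prod]
          apply Finset.prod_eq_zero (Finset.mem_univ j)
          simp

lemma HasRep.mono {k m t r k' m' t' r' : ℕ} (h : HasRep k m t r) (hk : k ≤ k') (hm : m ≤ m')
    (hm1 : 1 ≤ m') (ht : t ≤ t') (ht1 : 1 ≤ t') (hr : r' ≤ r) : HasRep k' m' t' r' := by
  obtain ⟨F, h1, h2, h3⟩ := h
  obtain ⟨F', h4, h5⟩ := pad F k' m' t' (by simpa using hk) (by simpa using hm) hm1 ht1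
    (fun i j => (h1 i j).trans ht)
  refine ⟨F', h4, ?_, ?_⟩
  · rw [h5]
    exact h2
  · rw [h5]
    exact hr.trans h3

lemma Good.rep {k t r : ℕ} (h : Good k t r) (hr : 1 ≤ r) : HasRep k 2 t r := by
  obtain ⟨F, a, c, h1, _, h3, h4, h5⟩ := h
  refine ⟨F, h1, ?_, ?_⟩
  · intro h0
    have := h5 ⟨0, hr⟩
    rw [h0, eval_zero, zero_mul] at this
    exact lt_irrefl _ this
  · have := Pool.Agent.H746R4.Tau.card_le_roots _ a c h3 h4 h5
    simpa using this

/-- The choice of the parameter. -/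
lemma half_param (s A B : ℕ) (hA : s ^ 7 ≤ 9 * A) (hB : s ^ 4 ≤ 6 * B) (hA1 : 1 ≤ A)
    (hB1 : 1 ≤ B) : ∃ s' : ℕ, 1 ≤ s' ∧ s ≤ 3 * s' ∧ s' ^ 7 ≤ A ∧ s' ^ 4 ≤ B := by
  by_cases h : s ≤ 3
  · exact ⟨1, le_rfl, by omega, by simpa using hA1, by simpa using hB1⟩
  · refine ⟨s / 2, by omega, by omega, ?_, ?_⟩
    · have h1 : (2 * (s / 2)) ^ 7 ≤ s ^ 7 := Nat.pow_le_pow_left (by omega) 7
      have h2 : (2 * (s / 2)) ^ 7 = 128 * (s / 2) ^ 7 := by ring
      omega
    · have h1 : (2 * (s / 2)) ^ 4 ≤ s ^ 4 := Nat.pow_le_pow_left (by omega) 4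
      have h2 : (2 * (s / 2)) ^ 4 = 16 * (s / 2) ^ 4 := by ring
      omega

lemma range_A (k m t s : ℕ) (hk : 4 ≤ k) (hm : 2 ≤ m) (ht : 2 ≤ t) (h7 : s ^ 7 ≤ k)
    (h4 : s ^ 4 ≤ m * t) (hs : 1 ≤ s) : ∃ r, HasRep k m t r ∧ k * m * t * s ^ 2 ≤ 500000 * r := by
  set K := k / 4 with hK
  set n := m / 2 with hn
  have hK1 : 1 ≤ K := by omega
  have hn1 : 1 ≤ n := by omega
  have hkK : k ≤ 7 * K := by omega
  have hmn : m ≤ 3 * n := by omega
  by_cases hT : 2 ≤ n * (t - 1)
  · have htt : t ≤ 2 * (t - 1) := by omega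
    have hmt : m * t ≤ 6 * (n * (t - 1)) := by
      calc m * t ≤ (3 * n) * (2 * (t - 1)) := Nat.mul_le_mul hmn htt
        _ = 6 * (n * (t - 1)) := by ring
    obtain ⟨s', hs1, hs2, hs3, hs4⟩ := half_param s K (n * (t - 1)) (by omega) (by omega) hK1
      (by omega)
    obtain ⟨r, hr1, hr2⟩ := range_two K (n * (t - 1)) s' hT hs3 hs4
    have hrpos : 1 ≤ r := by
      have : 0 < K * (n * (t - 1)) * s' ^ 2 := by positivity
      omega
    refine ⟨r, (rep_A K n (t - 1) r hn1 hrpos hr1).mono (by omega) (by omega) (by omega)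
      (by omega) (by omega) le_rfl, ?_⟩
    have hss : s ^ 2 ≤ 9 * s' ^ 2 := by
      calc s ^ 2 ≤ (3 * s') ^ 2 := Nat.pow_le_pow_left hs2 2
        _ = 9 * s' ^ 2 := by ring
    calc k * m * t * s ^ 2 = k * (m * t) * s ^ 2 := by ring
      _ ≤ (7 * K) * (6 * (n * (t - 1))) * (9 * s' ^ 2) := by gcongr
      _ = 378 * (K * (n * (t - 1)) * s' ^ 2) := by ring
      _ ≤ 378 * (1300 * r) := by gcongr
      _ ≤ 500000 * r := by omega
  · push Not at hT
    have hn2 : n = 1 := by
      by_contra hcon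
      have h1 : 2 ≤ n := by omega
      have h2 : 2 * 1 ≤ n * (t - 1) := Nat.mul_le_mul h1 (by omega)
      omega
    have ht2 : t = 2 := by
      rw [hn2] at hT
      omega
    have hm3 : m ≤ 3 := by omega
    have hs1 : s = 1 := by
      by_contra hcon
      have h1 : 2 ≤ s := by omega
      have h2 : 2 ^ 4 ≤ s ^ 4 := Nat.pow_le_pow_left h1 4
      have h3 : m * t ≤ 3 * 2 := Nat.mul_le_mul hm3 (by omega)
      omega
    refine ⟨k * 1, ((base_small.glue_k k).rep (by omega)).mono (by omega) hm (by omega) (by omega)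
      (by omega) le_rfl, ?_⟩
    rw [hs1, ht2]
    calc k * m * 2 * 1 ^ 2 ≤ k * 3 * 2 * 1 ^ 2 := by gcongr
      _ ≤ 500000 * (k * 1) := by omega

lemma range_B (k m t s : ℕ) (hk : 2 ≤ k) (hm : 2 ≤ m) (ht : 5 ≤ t) (h7 : s ^ 7 ≤ k * m)
    (h4 : s ^ 4 ≤ t) (hs : 1 ≤ s) : ∃ r, HasRep k m t r ∧ k * m * t * s ^ 2 ≤ 500000 * r := by
  set K := k / 2 with hK
  set n := m / 2 with hn
  set T := (t - 1) / 2 with hT
  have hK1 : 1 ≤ K := by omega
  have hn1 : 1 ≤ n := by omega
  have hT2 : 2 ≤ T := by omega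
  have hkK : k ≤ 3 * K := by omega
  have hmn : m ≤ 3 * n := by omega
  have htT : t ≤ 3 * T := by omega
  have hkm : k * m ≤ 9 * (K * n) := by
    calc k * m ≤ (3 * K) * (3 * n) := Nat.mul_le_mul hkK hmn
      _ = 9 * (K * n) := by ring
  have hKn : 1 ≤ K * n := Nat.mul_pos hK1 hn1
  obtain ⟨s', hs1, hs2, hs3, hs4⟩ := half_param s (K * n) T (by omega) (by omega) hKn (by omega)
  obtain ⟨r, hr1, hr2⟩ := range_two (K * n) T s' hT2 hs3 hs4
  have hrpos : 1 ≤ r := by
    have : 0 < K * n * T * s' ^ 2 := by positivity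
    omega
  refine ⟨r, (rep_B K n T r hn1 hrpos hr1).mono (by omega) (by omega) (by omega)
    (by omega) (by omega) le_rfl, ?_⟩
  have hss : s ^ 2 ≤ 9 * s' ^ 2 := by
    calc s ^ 2 ≤ (3 * s') ^ 2 := Nat.pow_le_pow_left hs2 2
      _ = 9 * s' ^ 2 := by ring
  calc k * m * t * s ^ 2 ≤ (9 * (K * n)) * (3 * T) * (9 * s' ^ 2) := by gcongr
    _ = 243 * (K * n * T * s' ^ 2) := by ring
    _ ≤ 243 * (1300 * r) := by gcongr
    _ ≤ 500000 * r := by omega

/-- **All ranges of the three parameters.** -/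
theorem main (k m t s : ℕ) (hk : 2 ≤ k) (hm : 2 ≤ m) (ht : 2 ≤ t)
    (h : (s ^ 7 ≤ k ∧ s ^ 4 ≤ m * t) ∨ (s ^ 7 ≤ k * m ∧ s ^ 4 ≤ t)) :
    ∃ r, HasRep k m t r ∧ k * m * t * s ^ 2 ≤ 500000 * r := by
  rcases Nat.eq_zero_or_pos s with hs | hs
  · refine ⟨m, rep_linear k m t (by omega) (by omega) ht, ?_⟩
    rw [hs]
    simp
  have hsmall : s = 1 → ∃ r, HasRep k m t r ∧ k * m * t * s ^ 2 ≤ 500000 * r := by
    intro hs1
    by_cases hk4 : 4 ≤ k
    · refine range_A k m t s hk4 hm ht ?_ ?_ hs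
      · rw [hs1]
        omega
      · rw [hs1]
        have : 1 ≤ m * t := Nat.mul_pos (by omega) (by omega)
        omega
    · by_cases ht5 : 5 ≤ t
      · refine range_B k m t s hk hm ht5 ?_ ?_ hs
        · rw [hs1]
          have : 1 ≤ k * m := Nat.mul_pos (by omega) (by omega)
          omega
        · rw [hs1]
          omega
      · refine ⟨m, rep_linear k m t (by omega) (by omega) ht, ?_⟩
        rw [hs1]
        calc k * m * t * 1 ^ 2 ≤ 3 * m * 4 * 1 ^ 2 := by gcongr <;> omega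
          _ ≤ 500000 * m := by omega
  rcases h with ⟨h7, h4⟩ | ⟨h7, h4⟩
  · by_cases hk4 : 4 ≤ k
    · exact range_A k m t s hk4 hm ht h7 h4 hs
    · apply hsmall
      by_contra hcon
      have h1 : 2 ≤ s := by omega
      have h2 : 2 ^ 7 ≤ s ^ 7 := Nat.pow_le_pow_left h1 7
      omega
  · by_cases ht5 : 5 ≤ t
    · exact range_B k m t s hk hm ht5 h7 h4 hs
    · apply hsmall
      by_contra hcon
      have h1 : 2 ≤ s := by omega
      have h2 : 2 ^ 4 ≤ s ^ 4 := Nat.pow_le_pow_left h1 4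
      omega

end Pool.Agent.TH866.TauGlue
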